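import Mathlib

set_option autoImplicit false

namespace Pool.Agent.H891R2.Jones

open Finset

/-- between the points of `T` where `g` vanishes there are zeros of the derivative -/
theorem rolle_finset (g g' : ℝ → ℝ) (hg : ∀ y, 0 < y → HasDerivAt g (g' y) y) (T : Finset ℝ)
    (hT : ∀ y ∈ T, 0 < y) (h0 : ∀ y ∈ T, g y = 0) (n : ℕ) (hn : n + 1 ≤ T.card) :
    ∃ T' : Finset ℝ, (∀ y ∈ T', 0 < y) ∧ (∀ y ∈ T', g' y = 0) ∧ n ≤ T'.card := by
  obtain ⟨U, hU, hUc⟩ := Finset.exists_subset_card_eq hn
  let y := U.orderEmbOfFin hUc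
  have hy : ∀ i, y i ∈ T := fun i => hU (U.orderEmbOfFin_mem hUc i)
  have hz : ∀ i : Fin n, ∃ z, y i.castSucc < z ∧ z < y i.succ ∧ g' z = 0 := by
    intro i
    have hlt : y i.castSucc < y i.succ := by
      apply (U.orderEmbOfFin hUc).strictMono
      exact Fin.castSucc_lt_succ
    have h1 : 0 < y i.castSucc := hT _ (hy _)
    obtain ⟨c, hc, hc'⟩ := exists_hasDerivAt_eq_zero (f := g) (f' := g') hlt
      (fun x hx => (hg x (lt_of_lt_of_le h1 hx.1)).continuousAt.continuousWithinAt)
      (by rw [h0 _ (hy _), h0 _ (hy _)])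
      (fun x hx => hg x (h1.trans hx.1))
    exact ⟨c, hc.1, hc.2, hc'⟩
  choose z hz1 hz2 hz3 using hz
  have hmono : StrictMono z := by
    intro i j hij
    refine lt_of_lt_of_le (hz2 i) (le_trans ?_ (hz1 j).le)
    apply (U.orderEmbOfFin hUc).monotone
    rw [Fin.le_def]
    simp only [Fin.val_succ, Fin.val_castSucc]
    exact hij
  refine ⟨Finset.univ.map ⟨z, hmono.injective⟩, ?_, ?_, ?_⟩
  · intro x hx
    simp only [Finset.mem_map, Finset.mem_univ, true_and, Function.Embedding.coeFn_mk] at hx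
    obtain ⟨i, rfl⟩ := hx
    exact (hT _ (hy _)).trans (hz1 i)
  · intro x hx
    simp only [Finset.mem_map, Finset.mem_univ, true_and, Function.Embedding.coeFn_mk] at hx
    obtain ⟨i, rfl⟩ := hx
    exact hz3 i
  · simp

/-- generalised Descartes bound: a real exponential sum with `n` terms that has `n` positive
zeros is zero. -/
theorem exp_zero {ι : Type*} [DecidableEq ι] (s : Finset ι) : ∀ (k : ι → ℤ) (C : ι → ℝ) (T : Finset ℝ),
    Set.InjOn k s → (∀ y ∈ T, 0 < y) → s.card ≤ T.card →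
    (∀ y ∈ T, ∑ i ∈ s, C i * y ^ (k i) = 0) → ∀ i ∈ s, C i = 0 := by
  induction s using Finset.induction_on with
  | empty => intro k C T _ _ _ _ i hi; simp at hi
  | insert i₀ s hi₀ ih =>
    intro k C T hk hT hc h0
    rw [Finset.card_insert_of_notMem hi₀] at hc
    have hkne : ∀ i ∈ s, k i ≠ k i₀ := by
      intro i hi heq
      have := hk (Finset.mem_coe.2 (Finset.mem_insert_of_mem hi))
        (Finset.mem_coe.2 (Finset.mem_insert_self _ _)) heq
      exact hi₀ (this ▸ hi)
    let g : ℝ → ℝ := fun y => C i₀ + ∑ i ∈ s, C i * y ^ (k i - k i₀)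
    let g' : ℝ → ℝ := fun y => ∑ i ∈ s, (C i * ((k i - k i₀ : ℤ) : ℝ)) * y ^ (k i - k i₀ - 1)
    have hg : ∀ y, 0 < y → HasDerivAt g (g' y) y := by
      intro y hy
      refine HasDerivAt.const_add (C i₀) ?_
      refine (HasDerivAt.fun_sum (u := s) (A := fun i y => C i * y ^ (k i - k i₀))
        (A' := fun i => (C i * ((k i - k i₀ : ℤ) : ℝ)) * y ^ (k i - k i₀ - 1)) ?_)
      intro i _
      have := (hasDerivAt_zpow (k i - k i₀) y (Or.inl hy.ne')).const_mul (C i)
      rw [mul_assoc]
      exact this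
    have hg0 : ∀ y ∈ T, g y = 0 := by
      intro y hy
      have h1 := h0 y hy
      have hy0 := hT y hy
      rw [Finset.sum_insert hi₀] at h1
      have h2 : g y = y ^ (-(k i₀)) * (C i₀ * y ^ (k i₀) + ∑ i ∈ s, C i * y ^ (k i)) := by
        simp only [g]
        rw [mul_add, Finset.mul_sum]
        congr 1
        · rw [mul_comm, mul_assoc, ← zpow_add₀ hy0.ne']; simp
        · refine Finset.sum_congr rfl fun i _ => ?_
          rw [mul_left_comm, ← zpow_add₀ hy0.ne']
          congr 2
          ring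
      rw [h2, h1, mul_zero]
    obtain ⟨T', hT'1, hT'2, hT'3⟩ := rolle_finset g g' hg T hT hg0 s.card hc
    have key := ih (fun i => k i - k i₀ - 1) (fun i => C i * ((k i - k i₀ : ℤ) : ℝ)) T'
      (by
        intro a ha b hb hab
        have : k a = k b := by
          have : k a - k i₀ - 1 = k b - k i₀ - 1 := hab
          omega
        exact hk (Finset.mem_coe.2 (Finset.mem_insert_of_mem ha))
          (Finset.mem_coe.2 (Finset.mem_insert_of_mem hb)) this)
      hT'1 hT'3 (fun y hy => hT'2 y hy)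
    have hC : ∀ i ∈ s, C i = 0 := by
      intro i hi
      have h1 := key i hi
      have h2 : ((k i - k i₀ : ℤ) : ℝ) ≠ 0 := by
        rw [Int.cast_ne_zero]
        exact sub_ne_zero.2 (hkne i hi)
      rcases mul_eq_zero.1 h1 with h | h
      · exact h
      · exact absurd h h2
    intro i hi
    rcases Finset.mem_insert.1 hi with rfl | hi
    · -- use one point of T
      have hTne : T.Nonempty := by
        rw [← Finset.card_pos]; omega
      obtain ⟨y, hy⟩ := hTne
      have h1 := h0 y hy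
      rw [Finset.sum_insert hi₀, Finset.sum_eq_zero (fun j hj => by rw [hC j hj, zero_mul]),
        add_zero] at h1
      rcases mul_eq_zero.1 h1 with h | h
      · exact h
      · exact absurd h (zpow_ne_zero _ (hT y hy).ne')
    · exact hC i hi

/-- complex coefficients -/
theorem exp_zero_complex {ι : Type*} [DecidableEq ι] (s : Finset ι) (k : ι → ℤ) (C : ι → ℂ) (T : Finset ℝ)
    (hk : Set.InjOn k s) (hT : ∀ y ∈ T, 0 < y) (hc : s.card ≤ T.card)
    (h0 : ∀ y ∈ T, ∑ i ∈ s, C i * (y : ℂ) ^ (k i) = 0) : ∀ i ∈ s, C i = 0 := by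
  have hre := exp_zero s k (fun i => (C i).re) T hk hT hc (by
    intro y hy
    have h1 := congrArg Complex.re (h0 y hy)
    rw [Complex.re_sum] at h1
    rw [← Complex.zero_re, ← h1]
    refine Finset.sum_congr rfl fun i _ => ?_
    rw [← Complex.ofReal_zpow, Complex.re_mul_ofReal])
  have him := exp_zero s k (fun i => (C i).im) T hk hT hc (by
    intro y hy
    have h1 := congrArg Complex.im (h0 y hy)
    rw [Complex.im_sum] at h1
    rw [← Complex.zero_im, ← h1]
    refine Finset.sum_congr rfl fun i _ => ?_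
    rw [← Complex.ofReal_zpow, Complex.im_mul_ofReal])
  intro i hi
  exact Complex.ext (hre i hi) (him i hi)

section eig

variable {K R : Type*} [Field K] [Ring R] [Algebra K R]

open Polynomial in
/-- powers of a unit annihilated by a polynomial with simple nonzero roots -/
theorem unit_zpow_eq {ι : Type*} [DecidableEq ι] (s : Finset ι) (hs : s.Nonempty) (v : ι → K)
    (hv : Set.InjOn v s) (hv0 : ∀ i ∈ s, v i ≠ 0) (F : Rˣ)
    (hF : aeval (F : R) (∏ i ∈ s, (X - C (v i))) = 0) (L : R →ₗ[K] K) :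
    ∃ c : ι → K, ∀ a : ℤ, L ((F ^ a : Rˣ) : R) = ∑ i ∈ s, c i * v i ^ a := by
  let P : ι → R := fun i => aeval (F : R) (Lagrange.basis s v i)
  have hsum : ∑ i ∈ s, P i = 1 := by
    simp only [P]
    rw [← map_sum, Lagrange.sum_basis hv hs, map_one]
  have hmul : ∀ i ∈ s, (F : R) * P i = v i • P i := by
    intro i hi
    have h1 : (X - C (v i)) * Lagrange.basis s v i = 
        C (∏ j ∈ s.erase i, (v i - v j)⁻¹) * ∏ j ∈ s, (X - C (v j)) := by
      rw [Lagrange.basis, ← Finset.mul_prod_erase s _ hi, map_prod]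
      have : ∀ j ∈ s.erase i, Lagrange.basisDivisor (v i) (v j) = C ((v i - v j)⁻¹) * (X - C (v j)) := by
        intro j _; rfl
      rw [Finset.prod_congr rfl this, Finset.prod_mul_distrib]
      ring
    have h2 := congrArg (aeval (F : R)) h1
    rw [map_mul, map_mul, hF, mul_zero, map_sub, aeval_X, aeval_C, sub_mul, sub_eq_zero] at h2
    rw [Algebra.smul_def]
    exact h2
  have hinv : ∀ i ∈ s, ((F⁻¹ : Rˣ) : R) * P i = (v i)⁻¹ • P i := by
    intro i hi
    have h1 := hmul i hi
    have h2 : ((F⁻¹ : Rˣ) : R) * ((F : R) * P i) = P i := by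
      rw [← mul_assoc, Units.inv_mul, one_mul]
    rw [h1, mul_smul_comm] at h2
    calc ((F⁻¹ : Rˣ) : R) * P i = (v i)⁻¹ • (v i • (((F⁻¹ : Rˣ) : R) * P i)) := by
          rw [smul_smul, inv_mul_cancel₀ (hv0 i hi), one_smul]
      _ = _ := by rw [h2]
  have hpow : ∀ i ∈ s, ∀ n : ℕ, ((F ^ n : Rˣ) : R) * P i = v i ^ n • P i := by
    intro i hi n
    induction n with
    | zero => simp
    | succ n ih =>
      rw [pow_succ, Units.val_mul, mul_assoc, hmul i hi, mul_smul_comm, ih, smul_smul, pow_succ']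
  have hpow' : ∀ i ∈ s, ∀ n : ℕ, (((F⁻¹) ^ n : Rˣ) : R) * P i = (v i)⁻¹ ^ n • P i := by
    intro i hi n
    induction n with
    | zero => simp
    | succ n ih =>
      rw [pow_succ, Units.val_mul, mul_assoc, hinv i hi, mul_smul_comm, ih, smul_smul, pow_succ']
  have hz : ∀ i ∈ s, ∀ a : ℤ, ((F ^ a : Rˣ) : R) * P i = v i ^ a • P i := by
    intro i hi a
    rcases a with n | n
    · simpa using hpow i hi n
    · have := hpow' i hi (n+1)
      rw [inv_pow] at this
      simpa [zpow_negSucc] using this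
  refine ⟨fun i => L (P i), fun a => ?_⟩
  calc L ((F ^ a : Rˣ) : R) = L (((F ^ a : Rˣ) : R) * ∑ i ∈ s, P i) := by rw [hsum, mul_one]
    _ = ∑ i ∈ s, L (((F ^ a : Rˣ) : R) * P i) := by rw [Finset.mul_sum, map_sum]
    _ = _ := by
      refine Finset.sum_congr rfl fun i hi => ?_
      rw [hz i hi a, map_smul, smul_eq_mul, mul_comm]

end eig

end Pool.Agent.H891R2.Jones
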