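import Pool.Agent.H891R2.Jones.Writhe
import Pool.Agent.H891R2.Jones.ExpSum

set_option autoImplicit false

namespace Pool.Agent.H891R2.Jones

open Finset LaurentPolynomial

/-! ### the evaluation points -/

/-- the root `> 1` of `x + 1/x = N` -/
noncomputable def xr (N : ℕ) : ℝ := ((N : ℝ) + Real.sqrt ((N : ℝ)^2 - 4)) / 2

theorem xr_gt (N : ℕ) (hN : 3 ≤ N) : 1 < xr N := by
  have h1 : (3 : ℝ) ≤ N := by exact_mod_cast hN
  have h2 := Real.sqrt_nonneg ((N : ℝ)^2 - 4)
  unfold xr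
  linarith

theorem xr_eq (N : ℕ) (hN : 3 ≤ N) : xr N + (xr N)⁻¹ = N := by
  have h1 : (3 : ℝ) ≤ N := by exact_mod_cast hN
  have h0 : (0 : ℝ) ≤ (N : ℝ)^2 - 4 := by nlinarith
  have h2 := Real.sq_sqrt h0
  have h3 := xr_gt N hN
  have h4 : xr N * xr N + 1 = N * xr N := by
    unfold xr
    nlinarith
  have h5 : xr N ≠ 0 := by linarith
  field_simp
  nlinarith

theorem xr_strictMono {N N' : ℕ} (h : N < N') (hN : 3 ≤ N) : xr N < xr N' := by
  have h1 : (3 : ℝ) ≤ N := by exact_mod_cast hN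
  have h2 : (N : ℝ) < N' := by exact_mod_cast h
  unfold xr
  have : Real.sqrt ((N : ℝ)^2 - 4) ≤ Real.sqrt ((N' : ℝ)^2 - 4) := by
    apply Real.sqrt_le_sqrt
    nlinarith
  linarith

noncomputable def Ar (N : ℕ) : ℂ := Complex.I * (Real.sqrt (xr N) : ℂ)

theorem Ar_sq (N : ℕ) (hN : 3 ≤ N) : Ar N ^ 2 = -(xr N : ℂ) := by
  unfold Ar
  have h3 := xr_gt N hN
  rw [mul_pow, Complex.I_sq, ← Complex.ofReal_pow, Real.sq_sqrt (by linarith)]
  ring

theorem Ar_ne (N : ℕ) (hN : 3 ≤ N) : Ar N ≠ 0 := by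
  intro h
  have h1 := Ar_sq N hN
  rw [h] at h1
  have h3 := xr_gt N hN
  have h2 : (xr N : ℂ) = 0 := by
    have : (0:ℂ)^2 = 0 := by norm_num
    rw [this] at h1
    exact neg_eq_zero.1 h1.symm
  rw [Complex.ofReal_eq_zero] at h2
  linarith

theorem Ar_d (N : ℕ) (hN : 3 ≤ N) : (N : ℂ) = -(Ar N)^2 - (Ar N)⁻¹^2 := by
  rw [inv_pow, Ar_sq N hN, inv_neg]
  have := congrArg (fun z : ℝ => (z : ℂ)) (xr_eq N hN)
  push_cast at this
  rw [← this]
  ring

theorem Ar_norm (N : ℕ) (hN : 3 ≤ N) : 1 < ‖Ar N‖ := by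
  have h3 := xr_gt N hN
  unfold Ar
  rw [norm_mul, Complex.norm_I, one_mul, Complex.norm_real, Real.norm_of_nonneg (Real.sqrt_nonneg _)]
  rw [Real.lt_sqrt (by norm_num)]
  simpa using h3

theorem Ar_zpow_inj (N : ℕ) (hN : 3 ≤ N) {a b : ℤ} (h : Ar N ^ a = Ar N ^ b) : a = b := by
  have h1 := congrArg norm h
  rw [norm_zpow, norm_zpow] at h1
  exact zpow_right_injective₀ (by linarith [Ar_norm N hN]) (by linarith [Ar_norm N hN]) h1

/-- powers of `A` with exponent divisible by four are powers of `x` -/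
theorem Ar_zpow_four (N : ℕ) (hN : 3 ≤ N) (t : ℤ) : Ar N ^ (4 * t) = (xr N : ℂ) ^ (2 * t) := by
  have h1 : Ar N ^ (4 : ℤ) = (xr N : ℂ) ^ (2 : ℤ) := by
    have : (4:ℤ) = 2 * 2 := by norm_num
    rw [this, zpow_mul]
    have h2 : Ar N ^ (2:ℤ) = -(xr N : ℂ) := Ar_sq N hN
    rw [h2]
    exact (even_two_mul (1:ℤ)).neg_zpow _
  rw [zpow_mul, h1, ← zpow_mul]

/-! ### evaluation of the normalised bracket -/

noncomputable def ev (N : ℕ) (hN : 3 ≤ N) : ℤ[T;T⁻¹] →+* ℂ :=
  LaurentPolynomial.eval₂ (Int.castRingHom ℂ) (Units.mk0 (Ar N) (Ar_ne N hN))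

theorem ev_T (N : ℕ) (hN : 3 ≤ N) (k : ℤ) : ev N hN (T k) = Ar N ^ k := by
  unfold ev
  rw [LaurentPolynomial.eval₂_T]
  simp

theorem ev_bracket {P : Type} [Fintype P] [DecidableEq P] [Nonempty P] (N : ℕ) (hN : 3 ≤ N) 
    (D : Diagram P) :
    (N : ℂ) * ev N hN D.bracket = ∑ col : P → Fin N, WW (Ar N) D.arcs D.crossings col := by
  rw [sum_colourings (Ar_ne N hN), Diagram.bracket, map_sum, Finset.mul_sum]
  refine Finset.sum_congr rfl fun s _ => ?_
  rw [map_mul, map_pow, map_sub, map_neg, ev_T, ev_T, ev_T]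
  have h1 : -(Ar N)^(2:ℤ) - (Ar N)^(-2:ℤ) = (N : ℂ) := by
    rw [Ar_d N hN, inv_pow]
    rfl
  rw [h1]
  have h2 : 0 < D.loops s := by
    unfold Diagram.loops
    have : Finite (Quot (D.Joined s)) := Quot.finite _
    have : Nonempty (Quot (D.Joined s)) := ⟨Quot.mk _ (Classical.arbitrary P)⟩
    exact Nat.card_pos
  obtain ⟨l, hl⟩ : ∃ l, D.loops s = l + 1 := ⟨D.loops s - 1, by omega⟩
  rw [hl]
  simp only [Nat.add_sub_cancel]
  ring

theorem eq_one_of_ev (f : ℤ[T;T⁻¹]) (h : ∀ N (hN : 3 ≤ N), ev N hN f = 1) : f = 1 := by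
  obtain ⟨n, p, hp⟩ := LaurentPolynomial.exists_T_pow (f - 1)
  have hp0 : p = 0 := by
    have h1 : ∀ N (hN : 3 ≤ N), (p.map (Int.castRingHom ℂ)).eval (Ar N) = 0 := by
      intro N hN
      have h2 := congrArg (ev N hN) hp
      rw [map_mul, map_sub, h N hN, map_one, sub_self, zero_mul] at h2
      unfold ev at h2
      rw [LaurentPolynomial.eval₂_toLaurent] at h2
      rw [Polynomial.eval_map]
      exact h2
    have h3 : p.map (Int.castRingHom ℂ) = 0 := by
      apply Polynomial.eq_zero_of_infinite_isRoot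
      have : Set.InjOn Ar {N | 3 ≤ N} := by
        intro N hN N' hN' hNN
        have h4 : Ar N ^ 2 = Ar N' ^ 2 := by rw [hNN]
        rw [Ar_sq N hN, Ar_sq N' hN', neg_inj, Complex.ofReal_inj] at h4
        rcases lt_trichotomy N N' with h5 | h5 | h5
        · exact absurd h4 (xr_strictMono h5 hN).ne
        · exact h5
        · exact absurd h4 (xr_strictMono h5 hN').ne'
      have hinf : Set.Infinite (Ar '' {N | 3 ≤ N}) := by
        apply Set.Infinite.image this
        exact Set.Ici_infinite 3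
      refine hinf.mono ?_
      rintro _ ⟨N, hN, rfl⟩
      exact h1 N hN
    exact (Polynomial.map_injective _ (RingHom.injective_int (Int.castRingHom ℂ))) 
      (by rw [h3, Polynomial.map_zero])
  rw [hp0, map_zero] at hp
  have h5 : (f - 1) * T n * T (-n) = 0 := by rw [← hp, zero_mul]
  rw [mul_assoc, ← T_add, add_neg_cancel, T_zero, mul_one] at h5
  exact sub_eq_zero.1 h5

/-! ### the formula for the family -/

/-- exponent `s(s+2) - 3ℓ²` -/
theorem four_dvd (l : ℤ) (m s : ℕ) (hl : (l - m) % 2 = 0) (hs : ((s : ℤ) - m) % 2 = 0) :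
    ∃ t : ℤ, (s : ℤ) * (s + 2) - 3 * l ^ 2 = 4 * t := by
  obtain ⟨u, hu⟩ : ∃ u : ℤ, (s : ℤ) = l + 2 * u := ⟨((s : ℤ) - l) / 2, by omega⟩
  rw [hu]
  obtain ⟨v, hv⟩ : ∃ v : ℤ, l * (l + 1) = 2 * v := by
    rcases Int.even_mul_succ_self l with ⟨v, hv⟩
    exact ⟨v, by linarith⟩
  obtain ⟨w, hw⟩ : ∃ w : ℤ, l * (l - 1) = 2 * w := ⟨v - l, by linarith⟩
  refine ⟨-w + l * u + u ^ 2 + u, ?_⟩
  linear_combination (-2) * hw

theorem linking_parity {m : ℕ} (O : Outer m) : (O.linking - m) % 2 = 0 := by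
  have h : ∀ (u : Fin m → Bool), ∃ k : ℤ, (∑ j, if u j then (1:ℤ) else -1) - m = 2 * k := by
    intro u
    refine ⟨-∑ j, if u j then 0 else 1, ?_⟩
    have h1 : (m : ℤ) = ∑ _j : Fin m, (1 : ℤ) := by simp
    rw [h1, mul_neg, Finset.mul_sum, ← Finset.sum_sub_distrib, ← Finset.sum_neg_distrib]
    refine Finset.sum_congr rfl fun j _ => ?_
    cases u j <;> simp
  obtain ⟨k, hk⟩ := h O.up
  unfold Outer.linking
  omega

/-- half exponent -/
noncomputable def kap (m : ℕ) (l : ℤ) (j : ℕ) : ℤ := 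
  (((m - 2 * j : ℕ) : ℤ) * ((m - 2 * j : ℕ) + 2) - 3 * l ^ 2) / 2

theorem kap_spec {m : ℕ} {l : ℤ} (hl : (l - m) % 2 = 0) {j : ℕ} (hj : j < m / 2 + 1) :
    ∃ t : ℤ, (((m - 2 * j : ℕ) : ℤ) * ((m - 2 * j : ℕ) + 2) - 3 * l ^ 2) = 4 * t ∧ 
      kap m l j = 2 * t := by
  obtain ⟨t, ht⟩ := four_dvd l m (m - 2 * j) hl (by omega)
  refine ⟨t, ht, ?_⟩
  unfold kap
  rw [ht]
  omega

theorem kap_inj {m : ℕ} {l : ℤ} (hl : (l - m) % 2 = 0) : 
    Set.InjOn (kap m l) (Finset.range (m / 2 + 1) : Finset ℕ) := by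
  intro i hi j hj hij
  have hi' := Finset.mem_range.1 (Finset.mem_coe.1 hi)
  have hj' := Finset.mem_range.1 (Finset.mem_coe.1 hj)
  obtain ⟨t, ht, ht'⟩ := kap_spec hl hi'
  obtain ⟨t', ht1, ht1'⟩ := kap_spec hl hj'
  have h1 : t = t' := by omega
  subst h1
  have h2 : ((m - 2 * i : ℕ) : ℤ) * ((m - 2 * i : ℕ) + 2) = 
      ((m - 2 * j : ℕ) : ℤ) * ((m - 2 * j : ℕ) + 2) := by linarith
  have h3 : (((m - 2 * i : ℕ) : ℤ) + 1)^2 = (((m - 2 * j : ℕ) : ℤ) + 1)^2 := by linarith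
  have h4 : ((m - 2 * i : ℕ) : ℤ) + 1 = ((m - 2 * j : ℕ) : ℤ) + 1 := by
    rw [sq_eq_sq₀ (by positivity) (by positivity)] at h3
    exact h3
  omega

theorem formula {m : ℕ} (hm : 0 < m) (O : Outer m) (N : ℕ) (hN : 3 ≤ N) :
    ∃ C : ℕ → ℂ, ∀ a : ℤ, ev N hN (O.twisted a).fPoly = 
      ∑ j ∈ Finset.range (m / 2 + 1), C j * (((xr N) ^ a : ℝ) : ℂ) ^ (kap m O.linking j) := by
  have hA := Ar_ne N hN
  have hd := Ar_d N hN
  have hx := xr_gt N hN
  have hNC : (N : ℂ) ≠ 0 := by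
    rw [Nat.cast_ne_zero]; omega
  set V := (Fin m → Fin N) → ((Fin m → Fin N) → ℂ) with hV
  let g0 : V := fun x y => ind (x = y)
  let L : Module.End ℂ V →ₗ[ℂ] ℂ := 
    { toFun := fun S => Zg (Ar N) N O (S g0)
      map_add' := by
        intro S S'
        unfold Zg
        rw [← Finset.sum_add_distrib]
        refine Finset.sum_congr rfl fun u _ => ?_
        exact mul_add (WW (Ar N) O.arcs O.crossings u) (S g0 (u ∘ O.lower) (u ∘ O.upper))
          (S' g0 (u ∘ O.lower) (u ∘ O.upper))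
      map_smul' := by
        intro r S
        unfold Zg
        simp only [RingHom.id_apply, smul_eq_mul]
        rw [Finset.mul_sum]
        refine Finset.sum_congr rfl fun u _ => ?_
        exact mul_left_comm (WW (Ar N) O.arcs O.crossings u) r (S g0 (u ∘ O.lower) (u ∘ O.upper)) }
  have hpoly : Polynomial.aeval ((twistUnit hA m N hd : (Module.End ℂ V)ˣ) : Module.End ℂ V)
      (∏ j ∈ Finset.range (m / 2 + 1), (Polynomial.X - Polynomial.C (mu (Ar N) m (m - 2 * j)))) = 0 :=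
    FF_poly hA hd (isTL_ee m N) m 0 (by omega)
  obtain ⟨c, hc⟩ := unit_zpow_eq (Finset.range (m / 2 + 1)) ⟨0, by simp⟩ 
    (fun j => mu (Ar N) m (m - 2 * j)) (by
      intro i hi j hj hij
      have hi' := Finset.mem_range.1 (Finset.mem_coe.1 hi)
      have hj' := Finset.mem_range.1 (Finset.mem_coe.1 hj)
      have h1 := Ar_zpow_inj N hN hij
      have h3 : (((m - 2 * i : ℕ) : ℤ) + 1)^2 = (((m - 2 * j : ℕ) : ℤ) + 1)^2 := by linarith
      have h4 : ((m - 2 * i : ℕ) : ℤ) + 1 = ((m - 2 * j : ℕ) : ℤ) + 1 := by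
        rw [sq_eq_sq₀ (by positivity) (by positivity)] at h3
        exact h3
      omega) (fun j _ => zpow_ne_zero _ hA) (twistUnit hA m N hd) hpoly L
  have hpar := linking_parity O
  refine ⟨fun j => (ev N hN (if Even O.close.writhe then 1 else -1)) * 
    Ar N ^ (-3 * O.close.writhe) * c j / N, fun a => ?_⟩
  have h1 : (N : ℂ) * ev N hN (O.twisted a).bracket = 
      ∑ j ∈ Finset.range (m / 2 + 1), c j * mu (Ar N) m (m - 2 * j) ^ a := by
    have : Nonempty (O.twist a).P := ⟨(O.twist a).lower ⟨0, hm⟩⟩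
    rw [ev_bracket N hN (O.twisted a), ← hc a]
    unfold Outer.twisted
    rw [Z_close, Zg_twist hA hd]
    rfl
  have h2 : ev N hN (O.twisted a).bracket = 
      (∑ j ∈ Finset.range (m / 2 + 1), c j * mu (Ar N) m (m - 2 * j) ^ a) / N := by
    rw [← h1]; field_simp
  have hev : Even (a * (O.linking ^ 2 - m)) := by
    apply Even.mul_left
    obtain ⟨k, hk⟩ : ∃ k : ℤ, O.linking = m + 2 * k := ⟨(O.linking - m)/2, by omega⟩
    rw [hk]
    have : ((m : ℤ) + 2 * k)^2 - m = (m : ℤ) * ((m : ℤ) - 1) + 2 * (2 * m * k + 2 * k^2) := by ring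
    rw [this]
    refine Even.add ?_ (even_two_mul _)
    have := Int.even_mul_pred_self (m : ℤ)
    exact this
  unfold Diagram.fPoly
  rw [map_mul, map_mul, h2, twist_writhe, ev_T]
  have h3 : (Even (O.close.writhe + a * (O.linking ^ 2 - m))) ↔ Even O.close.writhe := by
    rw [Int.even_add]
    simp [hev]
  have h3' : (if Even (O.close.writhe + a * (O.linking ^ 2 - m)) then (1 : ℤ[T;T⁻¹]) else -1) = 
      if Even O.close.writhe then 1 else -1 := by
    simp only [h3]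
  rw [h3', Finset.sum_div, Finset.mul_sum]
  refine Finset.sum_congr rfl fun j hj => ?_
  have hj' := Finset.mem_range.1 hj
  obtain ⟨t, ht, ht'⟩ := kap_spec hpar hj'
  have h4 : Ar N ^ (-3 * (O.close.writhe + a * (O.linking ^ 2 - m))) * mu (Ar N) m (m - 2 * j) ^ a = 
      Ar N ^ (-3 * O.close.writhe) * (((xr N) ^ a : ℝ) : ℂ) ^ (kap m O.linking j) := by
    have e1 : (((xr N) ^ a : ℝ) : ℂ) ^ (kap m O.linking j) = Ar N ^ (4 * t * a) := by
      rw [ht', Complex.ofReal_zpow, ← zpow_mul, zpow_mul (Ar N), Ar_zpow_four N hN, ← zpow_mul]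
      congr 1
      ring
    rw [e1, mu, ← zpow_mul, ← zpow_add₀ hA, ← zpow_add₀ hA]
    congr 1
    linear_combination a * ht
  calc _ = ev N hN (if Even O.close.writhe then 1 else -1) * 
        (Ar N ^ (-3 * (O.close.writhe + a * (O.linking ^ 2 - m))) * 
          mu (Ar N) m (m - 2 * j) ^ a) * c j / N := by ring
    _ = _ := by rw [h4]; ring

/-- at most `n` elements -/
theorem finite_of_bound (S : Set ℤ) (n : ℕ) (h : ∀ T : Finset ℤ, (↑T : Set ℤ) ⊆ S → T.card ≤ n) :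
    S.Finite ∧ S.ncard ≤ n := by
  have hfin : S.Finite := by
    by_contra hinf
    obtain ⟨T, hT, hTc⟩ := Set.Infinite.exists_subset_card_eq hinf (n + 1)
    have := h T hT
    omega
  refine ⟨hfin, ?_⟩
  have := h hfin.toFinset (by simp)
  rwa [Set.ncard_eq_toFinset_card S hfin]

theorem main_nonPell {m : ℕ} (hm : 0 < m) (O : Outer m)
    (hP : ¬ ∃ s : ℕ, s ≤ m ∧ (s : ℤ) * (s + 2) = 3 * O.linking ^ 2) :
    {a : ℤ | (O.twisted a).fPoly = 1}.Finite ∧ {a : ℤ | (O.twisted a).fPoly = 1}.ncard ≤ m / 2 + 1 := by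
  apply finite_of_bound
  intro T hT
  by_contra hcon
  have hN : 3 ≤ 3 := le_rfl
  obtain ⟨C, hC⟩ := formula hm O 3 hN
  have hx := xr_gt 3 hN
  have hpar := linking_parity O
  -- exponents
  have key := exp_zero_complex (insert none ((Finset.range (m / 2 + 1)).map Function.Embedding.some))
    (fun i : Option ℕ => i.elim 0 (kap m O.linking)) (fun i : Option ℕ => i.elim (-1) C)
    (T.image (fun a => (xr 3) ^ a)) ?_ ?_ ?_ ?_ none (Finset.mem_insert_self _ _)
  · simp at key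
  · -- injectivity
    have hne : ∀ j ∈ Finset.range (m / 2 + 1), kap m O.linking j ≠ 0 := by
      intro j hj h0
      obtain ⟨t, ht, ht'⟩ := kap_spec hpar (Finset.mem_range.1 hj)
      apply hP
      refine ⟨m - 2 * j, Nat.sub_le _ _, ?_⟩
      have : t = 0 := by omega
      subst this
      linarith
    intro a ha b hb hab
    simp only [Finset.coe_insert, Finset.coe_map, Set.mem_insert_iff, Set.mem_image,
      Finset.mem_coe, Function.Embedding.some_apply] at ha hb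
    rcases ha with rfl | ⟨i, hi, rfl⟩ <;> rcases hb with rfl | ⟨j, hj, rfl⟩
    · rfl
    · exact absurd hab.symm (hne j hj)
    · exact absurd hab (hne i hi)
    · rw [kap_inj hpar (Finset.mem_coe.2 hi) (Finset.mem_coe.2 hj) hab]
  · intro y hy
    rw [Finset.mem_image] at hy
    obtain ⟨a, _, rfl⟩ := hy
    exact zpow_pos (by linarith) a
  · rw [Finset.card_insert_of_notMem (by simp), Finset.card_map, Finset.card_range,
      Finset.card_image_of_injective _ (zpow_right_injective₀ (by linarith) (by linarith))]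
    omega
  · intro y hy
    rw [Finset.mem_image] at hy
    obtain ⟨a, ha, rfl⟩ := hy
    have h1 := hC a
    have h2 : (O.twisted a).fPoly = 1 := hT (Finset.mem_coe.2 ha)
    rw [h2, map_one] at h1
    rw [Finset.sum_insert (by simp), Finset.sum_map]
    simp only [Option.elim, Function.Embedding.some_apply, zpow_zero, mul_one]
    rw [← h1]
    ring

theorem main_Pell {m : ℕ} (hm : 0 < m) (O : Outer m)
    (hP : ∃ s : ℕ, s ≤ m ∧ (s : ℤ) * (s + 2) = 3 * O.linking ^ 2) :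
    (∀ a : ℤ, (O.twisted a).fPoly = 1) ∨ 
    ({a : ℤ | (O.twisted a).fPoly = 1}.Finite ∧ {a : ℤ | (O.twisted a).fPoly = 1}.ncard ≤ m / 2) := by
  by_cases hall : ∀ a : ℤ, (O.twisted a).fPoly = 1
  · exact Or.inl hall
  right
  apply finite_of_bound
  intro T hT
  by_contra hcon
  apply hall
  have hpar := linking_parity O
  obtain ⟨s, hsm, hs⟩ := hP
  -- parity of s
  have hs2 : ((s : ℤ) - m) % 2 = 0 := by
    have h1 : ((s : ℤ) * (s + 2)) % 2 = (3 * O.linking ^ 2) % 2 := by rw [hs]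
    have h2 : ((s : ℤ)) % 2 = O.linking % 2 := by
      rcases Int.emod_two_eq_zero_or_one (s : ℤ) with h | h <;>
      rcases Int.emod_two_eq_zero_or_one O.linking with h' | h' <;>
      simp [Int.mul_emod, Int.add_emod, pow_two, h, h'] at h1 ⊢
    omega
  obtain ⟨j₀, hj₀, hj₀'⟩ : ∃ j₀, j₀ < m / 2 + 1 ∧ m - 2 * j₀ = s := ⟨(m - s) / 2, by omega, by omega⟩
  have hk0 : kap m O.linking j₀ = 0 := by
    unfold kap
    rw [hj₀', hs]
    simp
  intro b
  apply eq_one_of_ev
  intro N hN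
  obtain ⟨C, hC⟩ := formula hm O N hN
  have hx := xr_gt N hN
  have key := exp_zero_complex (Finset.range (m / 2 + 1)) (kap m O.linking) 
    (fun j => C j - if j = j₀ then 1 else 0)
    (T.image (fun a => (xr N) ^ a)) (kap_inj hpar) ?_ ?_ ?_
  · rw [hC b, Finset.sum_eq_single j₀]
    · have := key j₀ (Finset.mem_range.2 hj₀)
      rw [if_pos rfl, sub_eq_zero] at this
      rw [this, hk0]
      simp
    · intro j hj hne
      have := key j hj
      rw [if_neg hne, sub_zero] at this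
      rw [this, zero_mul]
    · intro h
      exact absurd (Finset.mem_range.2 hj₀) h
  · intro y hy
    rw [Finset.mem_image] at hy
    obtain ⟨a, _, rfl⟩ := hy
    exact zpow_pos (by linarith) a
  · rw [Finset.card_range,
      Finset.card_image_of_injective _ (zpow_right_injective₀ (by linarith) (by linarith))]
    omega
  · intro y hy
    rw [Finset.mem_image] at hy
    obtain ⟨a, ha, rfl⟩ := hy
    have h1 := hC a
    have h2 : (O.twisted a).fPoly = 1 := hT (Finset.mem_coe.2 ha)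
    rw [h2, map_one] at h1
    have h3 : ∀ j ∈ Finset.range (m / 2 + 1), 
        (C j - if j = j₀ then 1 else 0) * (((xr N) ^ a : ℝ) : ℂ) ^ (kap m O.linking j) = 
        C j * (((xr N) ^ a : ℝ) : ℂ) ^ (kap m O.linking j) - 
          if j = j₀ then 1 else 0 := by
      intro j _
      by_cases hj : j = j₀
      · subst hj
        rw [hk0]; simp
      · simp [hj]
    rw [Finset.sum_congr rfl h3, Finset.sum_sub_distrib, ← h1, Finset.sum_ite_eq' _ j₀,
      if_pos (Finset.mem_range.2 hj₀), sub_self]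

end Pool.Agent.H891R2.Jones
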