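import Pool.Agent.H891R2.Jones.Writhe

set_option autoImplicit false

namespace Pool.Agent.H891R2.Jones

open Finset

section closed

variable {m : ℕ}

theorem count_eq_sum {α : Type*} [DecidableEq α] (a : α) (l : List α) :
    l.count a = (l.map (fun b => if b = a then 1 else 0)).sum := by
  induction l with
  | nil => rfl
  | cons b l ih =>
    rw [List.count_cons, ih, List.map_cons, List.sum_cons, add_comm]
    congr 1
    simp [beq_iff_eq]

theorem sum_filter_map {α : Type*} (P : α → Prop) [DecidablePred P] (f : α → ℕ) (l : List α) :
    ((l.filter (fun j => P j)).map f).sum = (l.map (fun j => if P j then f j else 0)).sum := by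
  induction l with
  | nil => rfl
  | cons b l ih =>
    by_cases h : P b
    · rw [List.filter_cons_of_pos (by simpa using h), List.map_cons, List.sum_cons, ih,
        List.map_cons, List.sum_cons, if_pos h]
    · rw [List.filter_cons_of_neg (by simpa using h), ih, List.map_cons, List.sum_cons, if_neg h,
        zero_add]

/-- starts of the two strands of a crossing at `x` -/
def cst {P : Type} [DecidableEq P] (x : P) (c : Crossing P) : ℕ :=
  (if (if c.underFwd then c.a else c.c) = x then 1 else 0) +
  (if (if c.overFwd then c.b else c.d) = x then 1 else 0)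

/-- number of pieces starting at `x` if the orientations `up` resp. `v` are used at the lower resp.
upper side of the box -/
def Sst (O : Outer m) (v : Fin m → Bool) (x : O.P) : ℕ :=
  (O.arcs.map (fun z => if z.1 = x then 1 else 0)).sum + (O.crossings.map (cst x)).sum +
  (∑ j, if O.up j ∧ O.lower j = x then 1 else 0) + (∑ j, if ¬ v j ∧ O.upper j = x then 1 else 0)

/-- orientation reversal -/
def Crossing.rev {P : Type} (c : Crossing P) : Crossing P := ⟨c.a, c.b, c.c, c.d, !c.underFwd, !c.overFwd⟩

def Outer.rev (O : Outer m) : Outer m where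
  P := O.P
  arcs := O.arcs.map Prod.swap
  crossings := O.crossings.map Crossing.rev
  lower := O.lower
  upper := O.upper
  up := fun j => !(O.up j)

theorem Sst_push (O : Outer m) (v : Fin m → Bool) (pos : Bool) (i : ℕ) (h : i + 1 < m)
    (hO : ∀ x, Sst O v x = 1) : ∀ x, Sst (O.push pos i) v x = 1 := by
  have hdef : O.push pos i = 
    { P := O.P ⊕ Fin m
      arcs := O.arcs.map (Prod.map .inl .inl) ++
        ((List.finRange m).filter (fun j => j ≠ ⟨i, Nat.lt_of_succ_lt h⟩ ∧ j ≠ ⟨i+1, h⟩)).map
          (fun j => if O.up j then (.inl (O.lower j), .inr j) else (.inr j, .inl (O.lower j)))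
      crossings := O.crossings.map (Crossing.map .inl) ++ 
        [O.newCrossing ⟨i, Nat.lt_of_succ_lt h⟩ ⟨i+1, h⟩ pos]
      lower := .inr
      upper := fun j => .inl (O.upper j)
      up := O.up ∘ Equiv.swap ⟨i, Nat.lt_of_succ_lt h⟩ ⟨i+1, h⟩ } := by
    rw [Outer.push, dif_pos h]
  rw [hdef]
  have hpq : (⟨i, Nat.lt_of_succ_lt h⟩ : Fin m) ≠ ⟨i+1, h⟩ := by
    intro h'; simp only [Fin.mk.injEq] at h'; omega
  generalize (⟨i, Nat.lt_of_succ_lt h⟩ : Fin m) = p at hpq ⊢
  generalize (⟨i+1, h⟩ : Fin m) = q at hpq ⊢
  rintro (x | j₀)
  · have hx := hO x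
    unfold Sst at hx ⊢
    dsimp only
    rw [List.map_append, List.sum_append, List.map_map, List.map_map, sum_filter_map,
      ← Fin.sum_univ_def, List.map_append, List.sum_append, List.map_map, List.map_singleton,
      List.sum_singleton]
    have e1 : ((fun z : (O.P ⊕ Fin m) × (O.P ⊕ Fin m) => if z.1 = Sum.inl x then (1:ℕ) else 0) ∘ 
        Prod.map Sum.inl Sum.inl) = fun z : O.P × O.P => if z.1 = x then 1 else 0 := by
      funext z; simp
    have e2 : (cst (Sum.inl x : O.P ⊕ Fin m) ∘ Crossing.map Sum.inl) = cst x := by
      funext c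
      simp only [Function.comp_apply, cst, Crossing.map]
      congr 1
      · split_ifs <;> simp_all
      · split_ifs <;> simp_all
    have e3 : (∑ j, if (O.up ∘ Equiv.swap p q) j = true ∧ (Sum.inr j : O.P ⊕ Fin m) = Sum.inl x 
        then (1:ℕ) else 0) = 0 := by
      apply Finset.sum_eq_zero; intro j _; simp
    have e4 : (∑ j, if ¬ v j = true ∧ (Sum.inl (O.upper j) : O.P ⊕ Fin m) = Sum.inl x then (1:ℕ) else 0)
        = ∑ j, if ¬ v j = true ∧ O.upper j = x then 1 else 0 := by
      refine Finset.sum_congr rfl fun j _ => ?_
      simp
    have e5 : (∑ j, if j ≠ p ∧ j ≠ q then ((fun z : (O.P ⊕ Fin m) × (O.P ⊕ Fin m) => 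
          if z.1 = Sum.inl x then (1:ℕ) else 0) ∘ 
          (fun j => if O.up j = true then (Sum.inl (O.lower j), Sum.inr j) 
            else (Sum.inr j, Sum.inl (O.lower j)))) j else 0) + 
          cst (Sum.inl x) (O.newCrossing p q pos) = 
        ∑ j, if O.up j = true ∧ O.lower j = x then 1 else 0 := by
      have e6 : ∀ j, (if O.up j = true ∧ O.lower j = x then (1:ℕ) else 0) = 
          (if j ≠ p ∧ j ≠ q then (if O.up j = true ∧ O.lower j = x then (1:ℕ) else 0) else 0) + 
          ((if j = p then (if O.up j = true ∧ O.lower j = x then (1:ℕ) else 0) else 0) + 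
          (if j = q then (if O.up j = true ∧ O.lower j = x then (1:ℕ) else 0) else 0)) := by
        intro j
        by_cases h1 : j = p
        · subst h1; simp [hpq]
        · by_cases h2 : j = q
          · subst h2; simp [h1]
          · simp [h1, h2]
      rw [Finset.sum_congr rfl (fun j _ => e6 j), Finset.sum_add_distrib, Finset.sum_add_distrib,
        Finset.sum_ite_eq' Finset.univ p, Finset.sum_ite_eq' Finset.univ q]
      simp only [Finset.mem_univ, if_true]
      congr 1
      · refine Finset.sum_congr rfl fun j _ => ?_
        by_cases hj : j ≠ p ∧ j ≠ q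
        · rw [if_pos hj, if_pos hj]
          cases hu : O.up j <;> simp [hu]
        · rw [if_neg hj, if_neg hj]
      · unfold cst Outer.newCrossing
        cases pos <;> cases hp : O.up p <;> cases hq : O.up q <;> simp [add_comm]
    rw [e1, e2, e3, e4]
    omega
  · unfold Sst
    dsimp only
    rw [List.map_append, List.sum_append, List.map_map, List.map_map, sum_filter_map,
      ← Fin.sum_univ_def, List.map_append, List.sum_append, List.map_map, List.map_singleton,
      List.sum_singleton]
    have e1 : (O.arcs.map ((fun z : (O.P ⊕ Fin m) × (O.P ⊕ Fin m) => 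
        if z.1 = Sum.inr j₀ then (1:ℕ) else 0) ∘ Prod.map Sum.inl Sum.inl)).sum = 0 := by
      apply List.sum_eq_zero
      intro n hn
      rw [List.mem_map] at hn
      obtain ⟨z, _, rfl⟩ := hn
      simp
    have e2 : (O.crossings.map (cst (Sum.inr j₀ : O.P ⊕ Fin m) ∘ Crossing.map Sum.inl)).sum = 0 := by
      apply List.sum_eq_zero
      intro n hn
      rw [List.mem_map] at hn
      obtain ⟨⟨a, b, c, d, u, o⟩, _, rfl⟩ := hn
      cases u <;> cases o <;> simp [cst, Crossing.map]
    have e3 : (∑ j, if (O.up ∘ Equiv.swap p q) j = true ∧ (Sum.inr j : O.P ⊕ Fin m) = Sum.inr j₀ 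
        then (1:ℕ) else 0) = if O.up (Equiv.swap p q j₀) = true then 1 else 0 := by
      rw [Finset.sum_eq_single j₀]
      · simp
      · intro j _ hj; simp [hj]
      · simp
    have e4 : (∑ j, if ¬ v j = true ∧ (Sum.inl (O.upper j) : O.P ⊕ Fin m) = Sum.inr j₀ then (1:ℕ) else 0)
        = 0 := by
      apply Finset.sum_eq_zero; intro j _; simp
    have e5 : (∑ j, if j ≠ p ∧ j ≠ q then ((fun z : (O.P ⊕ Fin m) × (O.P ⊕ Fin m) => 
          if z.1 = Sum.inr j₀ then (1:ℕ) else 0) ∘ 
          (fun j => if O.up j = true then (Sum.inl (O.lower j), Sum.inr j) 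
            else (Sum.inr j, Sum.inl (O.lower j)))) j else 0) = 
        if j₀ ≠ p ∧ j₀ ≠ q then (if O.up j₀ = true then 0 else 1) else 0 := by
      rw [Finset.sum_eq_single j₀]
      · by_cases hj : j₀ ≠ p ∧ j₀ ≠ q
        · rw [if_pos hj, if_pos hj]
          cases hu : O.up j₀ <;> simp [hu]
        · rw [if_neg hj, if_neg hj]
      · intro j _ hne
        by_cases hj : j ≠ p ∧ j ≠ q
        · rw [if_pos hj]
          cases hu : O.up j <;> simp [hu, hne]
        · rw [if_neg hj]
      · simp
    rw [e1, e2, e3, e4, e5]
    by_cases h1 : j₀ = p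
    · subst h1
      rw [Equiv.swap_apply_left]
      unfold cst Outer.newCrossing
      cases pos <;> cases hp : O.up j₀ <;> cases hq : O.up q <;> simp [hpq, hpq.symm]
    · by_cases h2 : j₀ = q
      · subst h2
        rw [Equiv.swap_apply_right]
        unfold cst Outer.newCrossing
        cases pos <;> cases hp : O.up p <;> cases hq : O.up j₀ <;> simp [hpq, hpq.symm]
      · rw [Equiv.swap_apply_of_ne_of_ne h1 h2]
        unfold cst Outer.newCrossing
        have h1' : ¬ p = j₀ := fun h => h1 h.symm
        have h2' : ¬ q = j₀ := fun h => h2 h.symm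
        cases pos <;> cases hp : O.up p <;> cases hq : O.up q <;> cases hj : O.up j₀ <;> 
          simp [h1, h2, h1', h2']

/-- the numbers of pieces starting and ending at a point are one -/
def Good (O : Outer m) (v : Fin m → Bool) : Prop :=
  (∀ x, Sst O v x = 1) ∧ (∀ x, Sst O.rev (fun j => !(v j)) x = 1)

theorem rev_push (O : Outer m) (pos : Bool) (i : ℕ) : (O.push pos i).rev = O.rev.push pos i := by
  by_cases h : i + 1 < m
  · unfold Outer.push
    rw [dif_pos h, dif_pos h]
    unfold Outer.rev
    dsimp only
    congr 1
    · rw [List.map_append, List.map_map, List.map_map, List.map_map]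
      congr 1
      apply List.map_congr_left
      intro j _
      simp only [Function.comp_apply]
      by_cases hu : O.up j = true <;> simp [hu]
    · rw [List.map_append, List.map_map, List.map_map]
      congr 1
      rw [List.map_singleton]
      congr 1
      cases pos <;> simp [Outer.newCrossing, Crossing.rev]
  · unfold Outer.push
    rw [dif_neg h, dif_neg h]

theorem Good_push (O : Outer m) (v : Fin m → Bool) (pos : Bool) (i : ℕ)
    (hO : Good O v) : Good (O.push pos i) v := by
  by_cases h : i + 1 < m
  · refine ⟨Sst_push O v pos i h hO.1, ?_⟩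
    rw [rev_push]
    exact Sst_push O.rev _ pos i h hO.2
  · unfold Outer.push
    rw [dif_neg h]
    exact hO

theorem Good_pushList (v : Fin m → Bool) (pos : Bool) (w : List ℕ) : ∀ (O : Outer m),
    Good O v → Good (O.pushList pos w) v := by
  induction w with
  | nil => intro O h; exact h
  | cons i w ih => intro O h; exact ih _ (Good_push O v pos i h)

theorem closed_iff (O : Outer m) : O.close.IsClosed ↔ Good O O.up := by
  have h1 : ∀ x, O.close.starts.count x = Sst O O.up x := by
    intro x
    unfold Diagram.starts Outer.close Sst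
    dsimp only
    rw [List.count_append, List.count_append, count_eq_sum, count_eq_sum, count_eq_sum,
      List.map_map, List.map_map, List.map_map, List.map_append, List.sum_append, List.map_map,
      ← Fin.sum_univ_def]
    have e1 : (O.crossings.map (cst x)).sum = 
        (O.crossings.map ((fun b => if b = x then (1:ℕ) else 0) ∘ 
          (fun c => if c.underFwd = true then c.a else c.c))).sum + 
        (O.crossings.map ((fun b => if b = x then (1:ℕ) else 0) ∘ 
          (fun c => if c.overFwd = true then c.b else c.d))).sum := by
      rw [← List.sum_map_add]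
      rfl
    have e2 : (∑ j, (((fun b => if b = x then (1:ℕ) else 0) ∘ Prod.fst) ∘ 
        (fun j => if O.up j = true then (O.lower j, O.upper j) else (O.upper j, O.lower j))) j) = 
        (∑ j, if O.up j = true ∧ O.lower j = x then 1 else 0) + 
        (∑ j, if ¬ O.up j = true ∧ O.upper j = x then 1 else 0) := by
      rw [← Finset.sum_add_distrib]
      refine Finset.sum_congr rfl fun j _ => ?_
      simp only [Function.comp_apply]
      cases hu : O.up j <;> simp
    rw [e1, e2]
    have e3 : ((fun b => if b = x then (1:ℕ) else 0) ∘ Prod.fst) = 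
        (fun z : O.P × O.P => if z.1 = x then (1:ℕ) else 0) := rfl
    rw [e3]
    omega
  have h2 : ∀ x, O.close.ends.count x = Sst O.rev (fun j => !(O.up j)) x := by
    intro x
    unfold Diagram.ends Outer.close Sst Outer.rev
    dsimp only
    rw [List.count_append, List.count_append, count_eq_sum, count_eq_sum, count_eq_sum,
      List.map_map, List.map_map, List.map_map, List.map_append, List.sum_append, List.map_map,
      ← Fin.sum_univ_def, List.map_map, List.map_map]
    have e1 : (O.crossings.map (cst x ∘ Crossing.rev)).sum = 
        (O.crossings.map ((fun b => if b = x then (1:ℕ) else 0) ∘ 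
          (fun c => if c.underFwd = true then c.c else c.a))).sum + 
        (O.crossings.map ((fun b => if b = x then (1:ℕ) else 0) ∘ 
          (fun c => if c.overFwd = true then c.d else c.b))).sum := by
      rw [← List.sum_map_add]
      congr 1
      apply List.map_congr_left
      rintro ⟨a, b, c, d, u, o⟩ _
      cases u <;> cases o <;> simp [cst, Crossing.rev]
    have e2 : (∑ j, (((fun b => if b = x then (1:ℕ) else 0) ∘ Prod.snd) ∘ 
        (fun j => if O.up j = true then (O.lower j, O.upper j) else (O.upper j, O.lower j))) j) = 
        (∑ j, if (!(O.up j)) = true ∧ O.lower j = x then 1 else 0) + 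
        (∑ j, if ¬ (!(O.up j)) = true ∧ O.upper j = x then 1 else 0) := by
      rw [← Finset.sum_add_distrib]
      refine Finset.sum_congr rfl fun j _ => ?_
      simp only [Function.comp_apply]
      cases hu : O.up j <;> simp
    rw [e1, e2]
    have e3 : ((fun z : O.P × O.P => if z.1 = x then (1:ℕ) else 0) ∘ Prod.swap) = 
        ((fun b => if b = x then (1:ℕ) else 0) ∘ Prod.snd) := rfl
    rw [e3]
    omega
  constructor
  · intro h
    exact ⟨fun x => (h1 x).symm.trans (h x).1, fun x => (h2 x).symm.trans (h x).2⟩
  · intro h x
    exact ⟨(h1 x).trans (h.1 x), (h2 x).trans (h.2 x)⟩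

theorem twist_up (O : Outer m) (a : ℤ) : (O.twist a).up = O.up := by
  have pat_inj : ∀ u v : Fin m → Bool, pat u = pat v → u = v := by
    intro u v h
    funext j
    have := congrFun h j
    simp only [pat, Fin.is_lt, dif_pos] at this
    revert this
    cases u j <;> cases v j <;> simp
  have hmem : ∀ i ∈ twistWord m 0, i + 1 < m := fun i hi => by
    have := twistWord_mem m 0 i hi; omega
  have hpos : ∀ (n : ℕ) (O : Outer m), 
      ((fun O : Outer m => O.pushList true (twistWord m 0))^[n] O).up = O.up := by
    intro n
    induction n with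
    | zero => intro O; rfl
    | succ n ih =>
      intro O
      obtain ⟨_, h2⟩ := pushList_writhe true (twistWord m 0) O hmem
      rw [(twistWord_act m 0 _).1] at h2
      rw [Function.iterate_succ_apply, ih]
      exact pat_inj _ _ h2
  have hneg : ∀ (n : ℕ) (O : Outer m), 
      ((fun O : Outer m => O.pushList false (twistWord m 0).reverse)^[n] O).up = O.up := by
    intro n
    induction n with
    | zero => intro O; rfl
    | succ n ih =>
      intro O
      obtain ⟨_, h2⟩ := pushList_writhe false (twistWord m 0).reverse O 
        (fun i hi => hmem i (List.mem_reverse.1 hi))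
      obtain ⟨h5, _⟩ := reverse_act (twistWord m 0) (pat O.up)
      rw [(twistWord_act m 0 _).1] at h5
      rw [h5] at h2
      rw [Function.iterate_succ_apply, ih]
      exact pat_inj _ _ h2
  rcases a with n | n
  · exact hpos n O
  · exact hneg (n+1) O

/-- if the diagram with the empty box is an oriented link diagram, so are all the diagrams with
full twists in the box. -/
theorem twisted_closed (O : Outer m) (h : O.close.IsClosed) (a : ℤ) : (O.twisted a).IsClosed := by
  unfold Outer.twisted
  rw [closed_iff, twist_up]
  rw [closed_iff] at h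
  have hpos : ∀ (n : ℕ) (O' : Outer m), Good O' O.up → 
      Good ((fun O : Outer m => O.pushList true (twistWord m 0))^[n] O') O.up := by
    intro n
    induction n with
    | zero => intro O' h; exact h
    | succ n ih =>
      intro O' h
      rw [Function.iterate_succ_apply]
      exact ih _ (Good_pushList _ _ _ _ h)
  have hneg : ∀ (n : ℕ) (O' : Outer m), Good O' O.up → 
      Good ((fun O : Outer m => O.pushList false (twistWord m 0).reverse)^[n] O') O.up := by
    intro n
    induction n with
    | zero => intro O' h; exact h
    | succ n ih =>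
      intro O' h
      rw [Function.iterate_succ_apply]
      exact ih _ (Good_pushList _ _ _ _ h)
  rcases a with n | n
  · exact hpos n O h
  · exact hneg (n+1) O h

end closed

end Pool.Agent.H891R2.Jones
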