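import Mathlib

set_option autoImplicit false

namespace Pool.Agent.H891R2.Jones

open Finset LaurentPolynomial

/-- A crossing of an oriented link diagram.  `a, b, c, d` are the four marked points around the
crossing in counterclockwise order; the under-strand joins `a` and `c`, the over-strand joins `b`
and `d`.  `underFwd = true` means that the under-strand runs from `a` to `c` (`false`: from `c` to
`a`); `overFwd = true` means that the over-strand runs from `b` to `d` (`false`: from `d` to `b`). -/
structure Crossing (P : Type) where
  a : P
  b : P
  c : P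
  d : P
  underFwd : Bool
  overFwd : Bool

/-- the sign of a crossing: `-1` for `a → c`, `b → d` and for `c → a`, `d → b`; `+1` otherwise -/
def Crossing.sign {P : Type} (x : Crossing P) : ℤ := if x.underFwd = x.overFwd then -1 else 1

/-- relabelling of the marked points of a crossing -/
def Crossing.map {P Q : Type} (f : P → Q) (x : Crossing P) : Crossing Q :=
  ⟨f x.a, f x.b, f x.c, f x.d, x.underFwd, x.overFwd⟩

/-- An oriented link diagram given by marked points `P` on its strands: an arc `(p, q)` is a piece
of strand without crossings running from `p` to `q`; the crossings join four marked points. -/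
structure Diagram (P : Type) where
  arcs : List (P × P)
  crossings : List (Crossing P)

namespace Diagram

variable {P : Type}

/-- the marked points at which the pieces (arcs, under- and over-strands) start -/
def starts (D : Diagram P) : List P :=
  D.arcs.map Prod.fst ++ D.crossings.map (fun x => if x.underFwd then x.a else x.c) ++
    D.crossings.map (fun x => if x.overFwd then x.b else x.d)

/-- the marked points at which the pieces end -/
def ends (D : Diagram P) : List P :=
  D.arcs.map Prod.snd ++ D.crossings.map (fun x => if x.underFwd then x.c else x.a) ++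
    D.crossings.map (fun x => if x.overFwd then x.d else x.b)

/-- the pieces fit together to closed oriented curves: every marked point is the start of exactly
one piece and the end of exactly one piece -/
def IsClosed [DecidableEq P] (D : Diagram P) : Prop :=
  ∀ p, D.starts.count p = 1 ∧ D.ends.count p = 1

/-- two marked points are joined in the state `s` (`s i = true`: the crossing `i` is smoothed by
the smoothing of type `A`, which joins `a` with `b` and `c` with `d`; `s i = false`: smoothing of
type `B`, joining `b` with `c` and `d` with `a`) -/
def Joined (D : Diagram P) (s : Fin D.crossings.length → Bool) (p q : P) : Prop :=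
  (p, q) ∈ D.arcs ∨ ∃ i : Fin D.crossings.length, 
    if s i then (p = (D.crossings[i]).a ∧ q = (D.crossings[i]).b) ∨ 
      (p = (D.crossings[i]).c ∧ q = (D.crossings[i]).d)
    else (p = (D.crossings[i]).b ∧ q = (D.crossings[i]).c) ∨ 
      (p = (D.crossings[i]).d ∧ q = (D.crossings[i]).a)

/-- the number of closed curves of the state `s` -/
noncomputable def loops (D : Diagram P) (s : Fin D.crossings.length → Bool) : ℕ :=
  Nat.card (Quot (D.Joined s))

/-- number of smoothings of type `A` minus number of smoothings of type `B` -/
def weight {n : ℕ} (s : Fin n → Bool) : ℤ := ∑ i, if s i then 1 else -1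

/-- the Kauffman bracket, a Laurent polynomial in `A = T 1` -/
noncomputable def bracket (D : Diagram P) : ℤ[T;T⁻¹] :=
  ∑ s : Fin D.crossings.length → Bool, T (weight s) * (-T 2 - T (-2)) ^ (D.loops s - 1)

/-- the writhe -/
def writhe (D : Diagram P) : ℤ := (D.crossings.map Crossing.sign).sum

/-- the normalised Kauffman bracket `(-A^{-3})^{w(D)} ⟨D⟩` -/
noncomputable def fPoly (D : Diagram P) : ℤ[T;T⁻¹] :=
  (if Even D.writhe then 1 else -1) * T (-3 * D.writhe) * D.bracket

end Diagram

/-! ### diagrams with a box and full twists -/

/-- The part of an oriented link diagram outside a box through which `m` strands run upwards or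
downwards: marked points, arcs and crossings outside the box; `lower j` (`upper j`) is the marked
point where the `j`-th strand enters the box at its lower (upper) side; `up j = true` if the
`j`-th strand is oriented upwards at the lower side of the (still open part of the) box. -/
structure Outer (m : ℕ) where
  P : Type
  [fin : Fintype P]
  [dec : DecidableEq P]
  arcs : List (P × P)
  crossings : List (Crossing P)
  lower : Fin m → P
  upper : Fin m → P
  up : Fin m → Bool

attribute [instance] Outer.fin Outer.dec

namespace Outer

variable {m : ℕ}

/-- fill the open part of the box with `m` vertical strands without crossings -/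
def close (O : Outer m) : Diagram O.P where
  arcs := O.arcs ++ (List.finRange m).map (fun j => 
    if O.up j then (O.lower j, O.upper j) else (O.upper j, O.lower j))
  crossings := O.crossings

/-- the new crossing between the strands at the places `p = i` and `q = i + 1`; lower left, lower
right, upper right, upper left points are `inl (lower p)`, `inl (lower q)`, `inr q`, `inr p`.
`pos = true`: the over-strand goes from lower left to upper right; `pos = false`: the over-strand
goes from lower right to upper left. -/
def newCrossing (O : Outer m) (p q : Fin m) (pos : Bool) : Crossing (O.P ⊕ Fin m) :=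
  if pos then ⟨.inl (O.lower q), .inr q, .inr p, .inl (O.lower p), O.up q, !(O.up p)⟩
  else ⟨.inl (O.lower p), .inl (O.lower q), .inr q, .inr p, O.up p, O.up q⟩

/-- draw one crossing between the strands number `i` and `i + 1` (`0 ≤ i`, `i + 1 < m`) at the
lower side of the open part of the box; the other strands are continued by arcs. -/
def push (O : Outer m) (pos : Bool) (i : ℕ) : Outer m :=
  if h : i + 1 < m then
    { P := O.P ⊕ Fin m
      arcs := O.arcs.map (Prod.map .inl .inl) ++
        ((List.finRange m).filter (fun j => j ≠ ⟨i, Nat.lt_of_succ_lt h⟩ ∧ j ≠ ⟨i+1, h⟩)).map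
          (fun j => if O.up j then (.inl (O.lower j), .inr j) else (.inr j, .inl (O.lower j)))
      crossings := O.crossings.map (Crossing.map .inl) ++ 
        [O.newCrossing ⟨i, Nat.lt_of_succ_lt h⟩ ⟨i+1, h⟩ pos]
      lower := .inr
      upper := fun j => .inl (O.upper j)
      up := O.up ∘ Equiv.swap ⟨i, Nat.lt_of_succ_lt h⟩ ⟨i+1, h⟩ }
  else O

/-- draw several crossings of the same kind, one after the other -/
def pushList (O : Outer m) (pos : Bool) (w : List ℕ) : Outer m :=
  w.foldl (fun O i => O.push pos i) O

end Outer

/-- the braid word `σ_k σ_{k+1} ⋯ σ_{k+n-2} σ_{k+n-2} ⋯ σ_k` in which strand `k` goes once around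
the strands `k+1, …, k+n-1` -/
def loopWord : ℕ → ℕ → List ℕ
  | 0, _ => []
  | 1, _ => []
  | (n+2), k => [k] ++ loopWord (n+1) (k+1) ++ [k]

/-- the full twist `Δ²` on the `n` strands `k, …, k+n-1` -/
def twistWord : ℕ → ℕ → List ℕ
  | 0, _ => []
  | (n+1), k => twistWord n (k+1) ++ loopWord (n+1) k

namespace Outer

variable {m : ℕ}

/-- `a` full twists on the `m` strands of the box (`|a|` left-handed full twists for `a < 0`) -/
def twist (O : Outer m) : ℤ → Outer m
  | Int.ofNat n => (fun O : Outer m => O.pushList true (twistWord m 0))^[n] O
  | Int.negSucc n => (fun O : Outer m => O.pushList false (twistWord m 0).reverse)^[n+1] O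

/-- the diagram with `a` full twists in the box -/
def twisted (O : Outer m) (a : ℤ) : Diagram (O.twist a).P := (O.twist a).close

/-- the linking number of the boundary curve of the twisting disc with the oriented diagram -/
def linking (O : Outer m) : ℤ := ∑ j, if O.up j then 1 else -1

end Outer

/-! ### colourings -/

section colour

variable {P : Type} {N : ℕ}

open Classical in
/-- the indicator -/
noncomputable def ind (p : Prop) : ℂ := if p then 1 else 0

theorem ind_pos {p : Prop} (h : p) : ind p = 1 := if_pos h

theorem ind_neg {p : Prop} (h : ¬ p) : ind p = 0 := if_neg h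

theorem ind_congr {p q : Prop} (h : p ↔ q) : ind p = ind q := by rw [propext h]

theorem ind_mul {p q : Prop} : ind p * ind q = ind (p ∧ q) := by
  unfold ind
  by_cases hp : p <;> by_cases hq : q <;> simp [hp, hq]

noncomputable def arcW (col : P → Fin N) (x : P × P) : ℂ := ind (col x.1 = col x.2)

noncomputable def crossW (A : ℂ) (col : P → Fin N) (x : Crossing P) : ℂ :=
  A * ind (col x.a = col x.b ∧ col x.c = col x.d) + 
    A⁻¹ * ind (col x.b = col x.c ∧ col x.d = col x.a)

noncomputable def WW (A : ℂ) (arcs : List (P × P)) (crossings : List (Crossing P))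
    (col : P → Fin N) : ℂ :=
  (arcs.map (arcW col)).prod * (crossings.map (crossW A col)).prod

theorem arcs_prod (arcs : List (P × P)) (col : P → Fin N) :
    (arcs.map (arcW col)).prod = ind (∀ x ∈ arcs, col x.1 = col x.2) := by
  induction arcs with
  | nil => simp [ind]
  | cons x l ih =>
    rw [List.map_cons, List.prod_cons, ih, arcW, ind_mul]
    exact ind_congr (by simp only [List.mem_cons, forall_eq_or_imp])

theorem card_colourings [Finite P] (r : P → P → Prop) :
    Nat.card {col : P → Fin N // ∀ p q, r p q → col p = col q} = N ^ Nat.card (Quot r) := by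
  have e : {col : P → Fin N // ∀ p q, r p q → col p = col q} ≃ (Quot r → Fin N) :=
    { toFun := fun col => Quot.lift col.1 col.2
      invFun := fun f => ⟨fun p => f (Quot.mk r p), fun p q h => congrArg f (Quot.sound h)⟩
      left_inv := fun col => rfl
      right_inv := fun f => by
        funext x
        induction x using Quot.ind
        rfl }
  rw [Nat.card_congr e, Nat.card_fun]
  simp

theorem zpow_sum {ι : Type*} (t : Finset ι) {A : ℂ} (hA : A ≠ 0) (z : ι → ℤ) :
    A ^ (∑ i ∈ t, z i) = ∏ i ∈ t, A ^ z i := by
  classical
  induction t using Finset.induction_on with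
  | empty => simp
  | insert a t ha ih => rw [Finset.sum_insert ha, Finset.prod_insert ha, zpow_add₀ hA, ih]

theorem prod_ind {ι : Type*} (t : Finset ι) (q : ι → Prop) :
    ∏ i ∈ t, ind (q i) = ind (∀ i ∈ t, q i) := by
  by_cases h : ∀ i ∈ t, q i
  · rw [ind_pos h]
    exact Finset.prod_eq_one (fun i hi => ind_pos (h i hi))
  · rw [ind_neg h]
    push Not at h
    obtain ⟨i, hi, hq⟩ := h
    exact Finset.prod_eq_zero hi (ind_neg hq)

theorem sum_colourings [Fintype P] [DecidableEq P] {A : ℂ} (hA : A ≠ 0) (D : Diagram P) :
    ∑ col : P → Fin N, WW A D.arcs D.crossings col = 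
      ∑ s : Fin D.crossings.length → Bool, A ^ (Diagram.weight s) * (N : ℂ) ^ D.loops s := by
  classical
  have h1 : ∀ col : P → Fin N, WW A D.arcs D.crossings col = 
      ∑ s : Fin D.crossings.length → Bool, A ^ (Diagram.weight s) * 
        ind (∀ p q, D.Joined s p q → col p = col q) := by
    intro col
    unfold WW
    rw [← Fin.prod_univ_fun_getElem D.crossings (crossW A col)]
    have h2 : ∀ i ∈ (Finset.univ : Finset (Fin D.crossings.length)), 
        crossW A col D.crossings[i.1] = 
        ∑ b : Bool, (A ^ (if b then 1 else -1 : ℤ)) * 
          ind (if b then (col D.crossings[i.1].a = col D.crossings[i.1].b ∧ 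
              col D.crossings[i.1].c = col D.crossings[i.1].d)
            else (col D.crossings[i.1].b = col D.crossings[i.1].c ∧ 
              col D.crossings[i.1].d = col D.crossings[i.1].a)) := by
      intro i _
      simp [crossW]
    rw [Finset.prod_congr rfl h2]
    rw [Finset.prod_univ_sum, Fintype.piFinset_univ, Finset.mul_sum]
    refine Finset.sum_congr rfl fun s _ => ?_
    rw [Finset.prod_mul_distrib, ← zpow_sum _ hA, prod_ind, arcs_prod, mul_left_comm, ind_mul]
    unfold Diagram.weight
    congr 1
    refine ind_congr ?_
    constructor
    · rintro ⟨h3, h4⟩ p q (h5 | ⟨i, h5⟩)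
      · exact h3 _ h5
      · have h6 := h4 i (Finset.mem_univ _)
        by_cases hs : s i
        · simp only [hs, if_true] at h5 h6
          rcases h5 with ⟨rfl, rfl⟩ | ⟨rfl, rfl⟩
          · exact h6.1
          · exact h6.2
        · simp only [hs] at h5 h6
          rcases h5 with ⟨rfl, rfl⟩ | ⟨rfl, rfl⟩
          · exact h6.1
          · exact h6.2
    · intro h3
      refine ⟨fun x hx => h3 _ _ (Or.inl hx), fun i _ => ?_⟩
      by_cases hs : s i
      · simp only [hs, if_true]
        exact ⟨h3 _ _ (Or.inr ⟨i, by simp [hs]⟩), h3 _ _ (Or.inr ⟨i, by simp [hs]⟩)⟩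
      · simp only [hs]
        exact ⟨h3 _ _ (Or.inr ⟨i, by simp [hs]⟩), h3 _ _ (Or.inr ⟨i, by simp [hs]⟩)⟩
  simp only [h1]
  rw [Finset.sum_comm]
  refine Finset.sum_congr rfl fun s _ => ?_
  rw [← Finset.mul_sum]
  congr 1
  rw [Diagram.loops, ← Nat.cast_pow, ← card_colourings, Nat.card_eq_fintype_card,
    Fintype.card_subtype]
  unfold ind
  rw [Finset.card_eq_sum_ones, Nat.cast_sum, Finset.sum_filter]
  refine Finset.sum_congr rfl fun x _ => ?_
  by_cases hx : ∀ (p q : P), D.Joined s p q → x p = x q
  · rw [if_pos hx, if_pos hx]; simp
  · rw [if_neg hx, if_neg hx]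

end colour

end Pool.Agent.H891R2.Jones
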