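import Pool.Agent.H891R2.Jones.TL
import Pool.Agent.H891R2.Jones.Diagram

set_option autoImplicit false

namespace Pool.Agent.H891R2.Jones

open Finset

section ops

variable {m N : ℕ} {W : Type} [AddCommGroup W] [Module ℂ W]

/-- change the colours at `p` and `q` to `c` -/
def upd (x : Fin m → Fin N) (p q : Fin m) (c : Fin N) : Fin m → Fin N :=
  fun j => if j = p ∨ j = q then c else x j

open Classical in
/-- the cup-cap operator at the places `p, q` -/
noncomputable def EE (p q : Fin m) : Module.End ℂ ((Fin m → Fin N) → W) where
  toFun ψ := fun x => if x p = x q then ∑ c, ψ (upd x p q c) else 0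
  map_add' ψ φ := by
    funext x
    simp only [Pi.add_apply]
    split_ifs
    · rw [Finset.sum_add_distrib]
    · simp
  map_smul' r ψ := by
    funext x
    simp only [Pi.smul_apply, RingHom.id_apply]
    split_ifs
    · rw [Finset.smul_sum]
    · simp

open Classical in
theorem EE_apply (p q : Fin m) (ψ : (Fin m → Fin N) → W) (x : Fin m → Fin N) :
    EE p q ψ x = if x p = x q then ∑ c, ψ (upd x p q c) else 0 := rfl

theorem upd_left (x : Fin m → Fin N) (p q : Fin m) (c : Fin N) : upd x p q c p = c := by
  simp [upd]

theorem upd_right (x : Fin m → Fin N) (p q : Fin m) (c : Fin N) : upd x p q c q = c := by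
  simp [upd]

theorem upd_other (x : Fin m → Fin N) {p q j : Fin m} (c : Fin N) (h1 : j ≠ p) (h2 : j ≠ q) :
    upd x p q c j = x j := by
  simp [upd, h1, h2]

theorem upd_upd (x : Fin m → Fin N) (p q : Fin m) (c c' : Fin N) :
    upd (upd x p q c) p q c' = upd x p q c' := by
  funext j
  simp only [upd]
  split_ifs <;> rfl

theorem EE_symm (p q : Fin m) : (EE p q : Module.End ℂ ((Fin m → Fin N) → W)) = EE q p := by
  apply LinearMap.ext
  intro ψ
  funext x
  rw [EE_apply, EE_apply]
  have : ∀ c, upd x p q c = upd x q p c := by
    intro c; funext j; simp only [upd, or_comm]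
  simp only [this, eq_comm (a := x p)]

theorem EE_sq (p q : Fin m) : 
    (EE p q : Module.End ℂ ((Fin m → Fin N) → W)) * EE p q = (N : ℂ) • EE p q := by
  apply LinearMap.ext
  intro ψ
  funext x
  rw [Module.End.mul_apply, EE_apply, LinearMap.smul_apply, Pi.smul_apply, EE_apply]
  split_ifs
  · simp only [EE_apply, upd_left, upd_right, if_true, upd_upd]
    rw [Finset.sum_const, Finset.card_univ, Fintype.card_fin, Nat.cast_smul_eq_nsmul]
  · simp

theorem EE_up {p q r : Fin m} (hpq : p ≠ q) (hpr : p ≠ r) (hqr : q ≠ r) :
    (EE p q : Module.End ℂ ((Fin m → Fin N) → W)) * EE q r * EE p q = EE p q := by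
  classical
  apply LinearMap.ext
  intro ψ
  funext x
  rw [Module.End.mul_apply, Module.End.mul_apply, EE_apply, EE_apply]
  by_cases hx : x p = x q
  · rw [if_pos hx, if_pos hx]
    have h1 : ∀ c, EE q r (EE p q ψ) (upd x p q c) = 
        if c = x r then ∑ c'', ψ (upd x p q c'') else 0 := by
      intro c
      rw [EE_apply, upd_right, upd_other x c hpr.symm hqr.symm]
      by_cases hc : c = x r
      · rw [if_pos hc, if_pos hc]
        have h2 : ∀ c', EE p q ψ (upd (upd x p q c) q r c') = 
            if c' = x r then ∑ c'', ψ (upd x p q c'') else 0 := by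
          intro c'
          rw [EE_apply, upd_left, upd_other _ c' hpq hpr, upd_left]
          by_cases hc' : c' = x r
          · rw [if_pos (hc.trans hc'.symm), if_pos hc']
            refine Finset.sum_congr rfl fun c'' _ => ?_
            congr 1
            funext j
            simp only [upd]
            by_cases hj : j = p ∨ j = q
            · simp [hj]
            · simp only [hj, if_false]
              by_cases hj2 : j = q ∨ j = r
              · have : j = r := by
                  rcases hj2 with h | h
                  · exact absurd (Or.inr h) hj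
                  · exact h
                simp [hc', this]
              · simp [hj2]
          · rw [if_neg (fun h => hc' (h.symm.trans hc)), if_neg hc']
        simp only [h2]
        rw [Finset.sum_ite_eq' Finset.univ (x r), if_pos (Finset.mem_univ _)]
      · rw [if_neg hc, if_neg hc]
    simp only [h1]
    rw [Finset.sum_ite_eq' Finset.univ (x r), if_pos (Finset.mem_univ _)]
  · rw [if_neg hx, if_neg hx]

theorem EE_far {p q r s : Fin m} (h1 : p ≠ r) (h2 : p ≠ s) (h3 : q ≠ r) (h4 : q ≠ s) :
    (EE p q : Module.End ℂ ((Fin m → Fin N) → W)) * EE r s = EE r s * EE p q := by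
  classical
  apply LinearMap.ext
  intro ψ
  funext x
  rw [Module.End.mul_apply, Module.End.mul_apply, EE_apply, EE_apply]
  have hL : ∀ c, EE r s ψ (upd x p q c) = 
      if x r = x s then ∑ c', ψ (upd (upd x p q c) r s c') else 0 := by
    intro c
    rw [EE_apply, upd_other x c h1.symm h3.symm, upd_other x c h2.symm h4.symm]
  have hR : ∀ c, EE p q ψ (upd x r s c) = 
      if x p = x q then ∑ c', ψ (upd (upd x r s c) p q c') else 0 := by
    intro c
    rw [EE_apply, upd_other x c h1 h2, upd_other x c h3 h4]
  simp only [hL, hR]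
  by_cases hx : x p = x q
  · by_cases hy : x r = x s
    · simp only [hx, hy, if_true]
      rw [Finset.sum_comm]
      refine Finset.sum_congr rfl fun c' _ => Finset.sum_congr rfl fun c _ => ?_
      congr 1
      funext j
      simp only [upd]
      by_cases hj : j = p ∨ j = q
      · have hj' : ¬ (j = r ∨ j = s) := by
          rcases hj with rfl | rfl
          · rintro (h | h); exacts [h1 h, h2 h]
          · rintro (h | h); exacts [h3 h, h4 h]
        simp [hj, hj']
      · simp [hj]
    · simp [hx, hy]
  · by_cases hy : x r = x s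
    · simp [hx, hy]
    · simp [hx, hy]

/-- the Temperley-Lieb generators -/
noncomputable def ee (m N : ℕ) (W : Type) [AddCommGroup W] [Module ℂ W] (i : ℕ) :
    Module.End ℂ ((Fin m → Fin N) → W) :=
  if h : i + 1 < m then EE ⟨i, Nat.lt_of_succ_lt h⟩ ⟨i+1, h⟩ else 0

theorem isTL_ee (m N : ℕ) : IsTL m (N : ℂ) (ee m N W) where
  sq i hi := by
    simp only [ee, hi, dif_pos]
    exact EE_sq _ _
  up i hi := by
    have h1 : i + 1 < m := by omega
    have h2 : i + 1 + 1 < m := by omega
    simp only [ee, h1, h2, dif_pos]
    refine EE_up ?_ ?_ ?_ <;> · intro h; simp only [Fin.mk.injEq] at h; omega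
  down i hi := by
    have h1 : i + 1 < m := by omega
    have h2 : i + 1 + 1 < m := by omega
    simp only [ee, h1, h2, dif_pos]
    rw [EE_symm (⟨i+1, _⟩ : Fin m) (⟨i+1+1, _⟩ : Fin m),
      EE_symm (⟨i, _⟩ : Fin m) (⟨i+1, _⟩ : Fin m)]
    refine EE_up ?_ ?_ ?_ <;> · intro h; simp only [Fin.mk.injEq] at h; omega
  far i j hj hij := by
    have h1 : i + 1 < m := by omega
    simp only [ee, h1, hj, dif_pos]
    refine EE_far ?_ ?_ ?_ ?_ <;> · intro h; simp only [Fin.mk.injEq] at h; omega

end ops

end Pool.Agent.H891R2.Jones
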