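import Mathlib

set_option autoImplicit false

namespace Pool.Agent.H891R2.Jones

section TL

variable {K R : Type*} [Field K] [Ring R] [Algebra K R]

/-- Temperley–Lieb relations for `e i`, `i + 1 < M` (`M` strands), loop value `d`. -/
structure IsTL (M : ℕ) (d : K) (e : ℕ → R) : Prop where
  sq : ∀ i, i + 1 < M → e i * e i = d • e i
  up : ∀ i, i + 2 < M → e i * e (i+1) * e i = e i
  down : ∀ i, i + 2 < M → e (i+1) * e i * e (i+1) = e (i+1)
  far : ∀ i j, j + 1 < M → i + 2 ≤ j → e i * e j = e j * e i

/-- the image of the braid generator -/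
def sg (A : K) (e : ℕ → R) (i : ℕ) : R := A • (1 : R) + A⁻¹ • e i

/-- strand `k` goes once around the strands `k+1, ..., k+n-1` -/
def LL (s : ℕ → R) : ℕ → ℕ → R
  | 0, _ => 1
  | 1, _ => 1
  | (n+2), k => s k * LL s (n+1) (k+1) * s k

/-- the full twist on the strands `k, ..., k+n-1` -/
def FF (s : ℕ → R) : ℕ → ℕ → R
  | 0, _ => 1
  | (n+1), k => FF s n (k+1) * LL s (n+1) k

variable {M : ℕ} {A d : K} {e : ℕ → R}

section basic
variable (hA : A ≠ 0) (hd : d = -A^2 - A⁻¹^2) (h : IsTL M d e)

include hA hd h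

theorem sg_e (i : ℕ) (hi : i + 1 < M) : sg A e i * e i = (-A⁻¹^3) • e i := by
  have h1 := h.sq i hi
  subst hd
  simp only [sg, add_mul, smul_mul_assoc, one_mul, h1, smul_smul]
  match_scalars
  field_simp
  ring

theorem e_sg (i : ℕ) (hi : i + 1 < M) : e i * sg A e i = (-A⁻¹^3) • e i := by
  have h1 := h.sq i hi
  subst hd
  simp only [sg, mul_add, mul_smul_comm, mul_one, h1, smul_smul]
  match_scalars
  field_simp
  ring

/-- the inverse generator -/
theorem sg_inv (i : ℕ) (hi : i + 1 < M) : sg A e i * sg A⁻¹ e i = 1 := by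
  have h1 := h.sq i hi
  subst hd
  simp only [sg, add_mul, mul_add, smul_mul_assoc, mul_smul_comm, one_mul, mul_one, h1, smul_smul,
    smul_add, inv_inv]
  match_scalars
  · field_simp
  · field_simp
    ring

theorem sg_inv' (i : ℕ) (hi : i + 1 < M) : sg A⁻¹ e i * sg A e i = 1 := by
  have h1 := h.sq i hi
  subst hd
  simp only [sg, add_mul, mul_add, smul_mul_assoc, mul_smul_comm, one_mul, mul_one, h1, smul_smul,
    smul_add, inv_inv]
  match_scalars
  · field_simp
  · field_simp
    ring

theorem sse_up (i : ℕ) (hi : i + 2 < M) :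
    sg A e i * sg A e (i+1) * e i = e (i+1) * e i := by
  have h1 := h.sq i (by omega)
  have h2 := h.up i hi
  subst hd
  simp only [sg, add_mul, mul_add, smul_mul_assoc, mul_smul_comm, one_mul, mul_one, h1, smul_smul,
    smul_add, h2]
  match_scalars
  · field_simp
    ring
  · field_simp

theorem sse_down (i : ℕ) (hi : i + 2 < M) :
    sg A e (i+1) * sg A e i * e (i+1) = e i * e (i+1) := by
  have h1 := h.sq (i+1) (by omega)
  have h2 := h.down i hi
  subst hd
  simp only [sg, add_mul, mul_add, smul_mul_assoc, mul_smul_comm, one_mul, mul_one, h1, smul_smul,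
    smul_add, h2]
  match_scalars
  · field_simp
    ring
  · field_simp

theorem braid (i : ℕ) (hi : i + 2 < M) :
    sg A e i * sg A e (i+1) * sg A e i = sg A e (i+1) * sg A e i * sg A e (i+1) := by
  have h1 := h.sq i (by omega)
  have h1' := h.sq (i+1) (by omega)
  have h2 := h.up i hi
  have h2' := h.down i hi
  subst hd
  simp only [sg, add_mul, mul_add, smul_mul_assoc, mul_smul_comm, one_mul, mul_one, h1, h1',
    smul_smul, smul_add, h2, h2']
  match_scalars <;> field_simp <;> ring

omit hA hd in
theorem far_se (i j : ℕ) (hj : j + 1 < M) (hij : i + 2 ≤ j) :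
    sg A e i * e j = e j * sg A e i := by
  have := h.far i j hj hij
  simp only [sg, add_mul, mul_add, smul_mul_assoc, mul_smul_comm, one_mul, mul_one, this]

omit hA hd in
theorem far_es (i j : ℕ) (hj : j + 1 < M) (hij : i + 2 ≤ j) :
    e i * sg A e j = sg A e j * e i := by
  have := h.far i j hj hij
  simp only [sg, add_mul, mul_add, smul_mul_assoc, mul_smul_comm, one_mul, mul_one, this]

omit hA hd in
theorem far_ss (i j : ℕ) (hj : j + 1 < M) (hij : i + 2 ≤ j) :
    sg A e i * sg A e j = sg A e j * sg A e i := by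
  have := h.far i j hj hij
  simp only [sg, add_mul, mul_add, smul_mul_assoc, mul_smul_comm, one_mul, mul_one, this,
    smul_add, smul_smul]
  match_scalars <;> ring

end basic

/-- if `x` commutes with `s i` for `k ≤ i < k+n-1`, it commutes with `LL s n k` -/
theorem commute_LL {s : ℕ → R} {x : R} : ∀ (n k : ℕ), (∀ i, k ≤ i → i + 1 < k + n → Commute x (s i)) →
    Commute x (LL s n k)
  | 0, _, _ => Commute.one_right _
  | 1, _, _ => Commute.one_right _
  | (n+2), k, hx => by
    have h1 := hx k le_rfl (by omega)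
    have h2 := commute_LL (n+1) (k+1) (fun i hi hi' => hx i (by omega) (by omega))
    rw [LL]
    exact (h1.mul_right h2).mul_right h1

theorem commute_FF {s : ℕ → R} {x : R} : ∀ (n k : ℕ), (∀ i, k ≤ i → i + 1 < k + n → Commute x (s i)) →
    Commute x (FF s n k)
  | 0, _, _ => Commute.one_right _
  | (n+1), k, hx => by
    rw [FF]
    exact (commute_FF n (k+1) (fun i hi hi' => hx i (by omega) (by omega))).mul_right
      (commute_LL (n+1) k hx)

section central
variable (hA : A ≠ 0) (hd : d = -A^2 - A⁻¹^2) (h : IsTL M d e)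

include hA hd h

/-- `LL n k` commutes with the generators `s i`, `k < i` -/
theorem LL_comm : ∀ (n k i : ℕ), k + n ≤ M → k + 1 ≤ i → i + 1 < k + n →
    Commute (sg A e i) (LL (sg A e) n k)
  | 0, _, _, _, _, _ => by omega
  | 1, _, _, _, _, _ => by omega
  | (n+2), k, i, hM, hki, hi => by
    rcases Nat.eq_or_lt_of_le hki with hk | hk
    · -- i = k+1
      subst hk
      -- n ≥ 1
      obtain ⟨n', rfl⟩ : ∃ n', n = n' + 1 := ⟨n - 1, by omega⟩
      set s := sg A e with hs
      have hb := braid hA hd h k (by omega)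
      rw [← hs] at hb
      have hc : Commute (s k) (LL s (n'+1) (k+1+1)) :=
        commute_LL _ _ (fun j hj hj' => far_ss h k j (by omega) (by omega))
      rw [LL, LL]
      show s (k+1) * (s k * (s (k+1) * LL s (n'+1) (k+1+1) * s (k+1)) * s k) = 
        (s k * (s (k+1) * LL s (n'+1) (k+1+1) * s (k+1)) * s k) * s (k+1)
      calc s (k+1) * (s k * (s (k+1) * LL s (n'+1) (k+1+1) * s (k+1)) * s k)
          = (s (k+1) * s k * s (k+1)) * LL s (n'+1) (k+1+1) * s (k+1) * s k := by noncomm_ring
        _ = (s k * s (k+1) * s k) * LL s (n'+1) (k+1+1) * s (k+1) * s k := by rw [hb]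
        _ = s k * s (k+1) * (s k * LL s (n'+1) (k+1+1)) * s (k+1) * s k := by noncomm_ring
        _ = s k * s (k+1) * (LL s (n'+1) (k+1+1) * s k) * s (k+1) * s k := by rw [hc.eq]
        _ = s k * s (k+1) * LL s (n'+1) (k+1+1) * (s k * s (k+1) * s k) := by noncomm_ring
        _ = s k * s (k+1) * LL s (n'+1) (k+1+1) * (s (k+1) * s k * s (k+1)) := by rw [hb]
        _ = _ := by noncomm_ring
    · -- i ≥ k+2
      have h1 : Commute (sg A e i) (sg A e k) := (far_ss h k i (by omega) (by omega)).symm
      have h2 := LL_comm (n+1) (k+1) i (by omega) (by omega) (by omega)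
      rw [LL]
      exact (h1.mul_right h2).mul_right h1

/-- the full twist is central -/
theorem FF_comm : ∀ (n k i : ℕ), k + n ≤ M → k ≤ i → i + 1 < k + n →
    Commute (sg A e i) (FF (sg A e) n k)
  | 0, _, _, _, _, _ => by omega
  | (n+1), k, i, hM, hki, hi => by
    rcases Nat.eq_or_lt_of_le hki with hk | hk
    · subst hk
      obtain ⟨n', rfl⟩ : ∃ n', n = n' + 1 := ⟨n - 1, by omega⟩
      set s := sg A e with hs
      have hc : Commute (s k) (FF s n' (k+1+1)) :=
        commute_FF _ _ (fun j hj hj' => far_ss h k j (by omega) (by omega))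
      have hL : Commute (LL s (n'+1+1) k) (LL s (n'+1) (k+1)) :=
        commute_LL _ _ (fun j hj hj' => (LL_comm hA hd h (n'+1+1) k j hM (by omega) (by omega)).symm)
      have key : Commute (s k) (LL s (n'+1) (k+1) * LL s (n'+1+1) k) := by
        show s k * (LL s (n'+1) (k+1) * LL s (n'+1+1) k) = 
          LL s (n'+1) (k+1) * LL s (n'+1+1) k * s k
        have e1 : LL s (n'+1+1) k = s k * LL s (n'+1) (k+1) * s k := by rw [LL]
        calc s k * (LL s (n'+1) (k+1) * LL s (n'+1+1) k) 
            = s k * LL s (n'+1) (k+1) * (s k * LL s (n'+1) (k+1) * s k) := by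
              rw [e1]; noncomm_ring
          _ = (s k * LL s (n'+1) (k+1) * s k) * LL s (n'+1) (k+1) * s k := by noncomm_ring
          _ = LL s (n'+1+1) k * LL s (n'+1) (k+1) * s k := by rw [e1]
          _ = _ := by rw [hL.eq]
      rw [FF, FF, mul_assoc]
      exact hc.mul_right key
    · have h1 := FF_comm n (k+1) i (by omega) (by omega) (by omega)
      have h2 := LL_comm hA hd h (n+1) k i hM (by omega) hi
      rw [FF]
      exact h1.mul_right h2

theorem FF_comm_e (n k i : ℕ) (hM : k + n ≤ M) (hki : k ≤ i) (hi : i + 1 < k + n) :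
    Commute (e i) (FF (sg A e) n k) := by
  have h1 := FF_comm hA hd h n k i hM hki hi
  have h2 : e i = A • sg A e i - (A * A) • (1 : R) := by
    simp only [sg, smul_add, smul_smul]
    match_scalars <;> field_simp
    ring
  rw [h2]
  exact (h1.smul_left A).sub_left ((Commute.one_left _).smul_left _)

/-- the key identity -/
theorem key_E : ∀ (n k : ℕ), k + n + 2 ≤ M →
    LL (sg A e) (n+1) (k+1) * sg A e k * LL (sg A e) (n+1) (k+1) * e k = (-A⁻¹^3) • e k
  | 0, k, hM => by
    rw [LL]
    simpa using sg_e hA hd h k (by omega)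
  | (n+1), k, hM => by
    set s := sg A e with hs
    have ih := key_E n (k+1) (by omega)
    rw [← hs] at ih
    have hb := braid hA hd h k (by omega)
    rw [← hs] at hb
    have hc : Commute (s k) (LL s (n+1) (k+1+1)) :=
      commute_LL _ _ (fun j hj hj' => far_ss h k j (by omega) (by omega))
    have h1 := sse_up hA hd h k (by omega)
    have h2 := sse_down hA hd h k (by omega)
    have h3 := h.up k (by omega)
    rw [← hs] at h1 h2
    rw [LL]
    set X := LL s (n+1) (k+1+1) with hX
    calc s (k+1) * X * s (k+1) * s k * (s (k+1) * X * s (k+1)) * e k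
        = s (k+1) * X * (s (k+1) * s k * s (k+1)) * X * s (k+1) * e k := by noncomm_ring
      _ = s (k+1) * X * (s k * s (k+1) * s k) * X * s (k+1) * e k := by rw [hb]
      _ = s (k+1) * (X * s k) * s (k+1) * (s k * X) * s (k+1) * e k := by noncomm_ring
      _ = s (k+1) * (s k * X) * s (k+1) * (X * s k) * s (k+1) * e k := by rw [hc.eq]
      _ = s (k+1) * s k * X * s (k+1) * X * (s k * s (k+1) * e k) := by noncomm_ring
      _ = s (k+1) * s k * X * s (k+1) * X * (e (k+1) * e k) := by rw [h1]
      _ = s (k+1) * s k * (X * s (k+1) * X * e (k+1)) * e k := by noncomm_ring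
      _ = s (k+1) * s k * ((-A⁻¹^3) • e (k+1)) * e k := by rw [ih]
      _ = (-A⁻¹^3) • (s (k+1) * s k * e (k+1) * e k) := by
          rw [mul_smul_comm, smul_mul_assoc]
      _ = (-A⁻¹^3) • (e k * e (k+1) * e k) := by rw [h2]
      _ = _ := by rw [h3]

theorem FF_e (n k : ℕ) (hM : k + n + 2 ≤ M) :
    FF (sg A e) (n+2) k * e k = (A⁻¹^6) • (FF (sg A e) n (k+2) * e k) := by
  set s := sg A e with hs
  have h1 := key_E hA hd h n k hM
  have h2 := sg_e hA hd h k (by omega)
  rw [← hs] at h1 h2
  rw [FF, FF, LL]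
  set X := LL s (n+1) (k+1) with hX
  calc FF s n (k+1+1) * X * (s k * X * s k) * e k 
      = FF s n (k+1+1) * (X * s k * X * (s k * e k)) := by noncomm_ring
    _ = FF s n (k+1+1) * (X * s k * X * ((-A⁻¹^3) • e k)) := by rw [h2]
    _ = (-A⁻¹^3) • (FF s n (k+1+1) * (X * s k * X * e k)) := by
        rw [mul_smul_comm, mul_smul_comm]
    _ = (-A⁻¹^3) • (FF s n (k+1+1) * ((-A⁻¹^3) • e k)) := by rw [h1]
    _ = _ := by
        rw [mul_smul_comm, smul_smul]
        congr 1
        ring

end central

/-! ### the minimal polynomial of the full twist -/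

open Polynomial in
theorem comm_aeval {x F : R} (h : Commute x F) (p : K[X]) : Commute x (aeval F p) := by
  induction p using Polynomial.induction_on' with
  | add p q hp hq => rw [map_add]; exact hp.add_right hq
  | monomial n a =>
    rw [aeval_monomial]
    have h1 : Commute x (algebraMap K R a) := (Algebra.commutes a x).symm
    exact h1.mul_right (h.pow_right n)

open Polynomial in
theorem aeval_mul_of_eq {F G y : R} (hFG : Commute F G) (hy : F * y = G * y) (p : K[X]) :
    aeval F p * y = aeval G p * y := by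
  induction p using Polynomial.induction_on' with
  | add p q hp hq => rw [map_add, map_add, add_mul, add_mul, hp, hq]
  | monomial n a =>
    rw [aeval_monomial, aeval_monomial, mul_assoc, mul_assoc]
    congr 1
    induction n with
    | zero => simp
    | succ n ih =>
      rw [pow_succ, mul_assoc, hy, ← mul_assoc, (hFG.pow_left n).eq, mul_assoc, ih, ← mul_assoc,
        ← pow_succ']

/-- the eigenvalue of the full twist on `n` strands on the part with `s` through strands -/
noncomputable def mu (A : K) (n s : ℕ) : K := A ^ ((s : ℤ) * (s + 2) - 3 * n)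

open Polynomial in
/-- the annihilating polynomial -/
noncomputable def PP (A : K) (n : ℕ) : K[X] :=
  ∏ j ∈ Finset.range (n / 2 + 1), (X - C (mu A n (n - 2 * j)))

open Polynomial in
noncomputable def QQ (A : K) (n : ℕ) : K[X] :=
  ∏ j ∈ Finset.range (n / 2 + 1), (X - C (mu A (n + 2) (n - 2 * j)))

open Polynomial in
theorem PP_succ (A : K) (n : ℕ) : PP A (n+2) = QQ A n * (X - C (mu A (n+2) (n+2))) := by
  unfold PP QQ
  have : (n + 2) / 2 + 1 = (n / 2 + 1) + 1 := by omega
  rw [this, Finset.prod_range_succ']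
  congr 1
  refine Finset.prod_congr rfl fun j _ => ?_
  have : n + 2 - 2 * (j + 1) = n - 2 * j := by omega
  rw [this]

theorem mu_shift (hA : A ≠ 0) (n s : ℕ) : mu A (n+2) s = A⁻¹^6 * mu A n s := by
  unfold mu
  rw [inv_pow, ← zpow_natCast, ← zpow_neg, ← zpow_add₀ hA]
  congr 1
  push_cast
  ring

open Polynomial in
theorem QQ_comp (hA : A ≠ 0) (n : ℕ) :
    (QQ A n).comp (C (A⁻¹^6) * X) = C ((A⁻¹^6)^(n/2+1)) * PP A n := by
  unfold PP QQ
  rw [Polynomial.prod_comp]
  have : ∀ j ∈ Finset.range (n / 2 + 1), 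
      (X - C (mu A (n + 2) (n - 2 * j))).comp (C (A⁻¹^6) * X) =
      C (A⁻¹^6) * (X - C (mu A n (n - 2 * j))) := by
    intro j _
    rw [sub_comp, X_comp, C_comp, mu_shift hA, C_mul]
    ring
  rw [Finset.prod_congr rfl this, Finset.prod_mul_distrib, Finset.prod_const, Finset.card_range,
    ← C_pow]

section final
variable (hA : A ≠ 0) (hd : d = -A^2 - A⁻¹^2) (h : IsTL M d e)

theorem mul_LL_of {s : ℕ → R} {G : R} : ∀ (n k : ℕ),
    (∀ i, k ≤ i → i + 1 < k + n → G * s i = A • G) → G * LL s n k = A ^ (2 * (n - 1)) • G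
  | 0, _, _ => by simp [LL]
  | 1, _, _ => by simp [LL]
  | (n+2), k, hG => by
    have h1 := hG k le_rfl (by omega)
    have h2 := mul_LL_of (n+1) (k+1) (fun i hi hi' => hG i (by omega) (by omega))
    rw [LL, ← mul_assoc, ← mul_assoc, h1, smul_mul_assoc, h2, smul_mul_assoc, smul_mul_assoc, h1,
      smul_smul, smul_smul]
    congr 1
    have : 2 * (n + 2 - 1) = 1 + 2 * (n + 1 - 1) + 1 := by omega
    rw [this, pow_add, pow_add]
    ring

theorem mul_FF_of {s : ℕ → R} {G : R} : ∀ (n k : ℕ),
    (∀ i, k ≤ i → i + 1 < k + n → G * s i = A • G) → G * FF s n k = A ^ (n * (n - 1)) • G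
  | 0, _, _ => by simp [FF]
  | (n+1), k, hG => by
    have h1 := mul_FF_of n (k+1) (fun i hi hi' => hG i (by omega) (by omega))
    have h2 := mul_LL_of (n+1) k hG
    rw [FF, ← mul_assoc, h1, smul_mul_assoc, h2, smul_smul, ← pow_add]
    congr 2
    rcases n with _ | n
    · rfl
    · simp only [Nat.add_sub_cancel]
      ring

include hA hd h
open Polynomial in
theorem FF_poly : ∀ (n k : ℕ), k + n ≤ M → aeval (FF (sg A e) n k) (PP A n) = 0
  | 0, k, _ => by
    simp [PP, FF, mu]
  | 1, k, _ => by
    simp [PP, FF, LL, mu]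
  | (n+2), k, hM => by
    have ih := FF_poly n (k+2) (by omega)
    set F := FF (sg A e) (n+2) k with hF
    set F' := FF (sg A e) n (k+2) with hF'
    have hcomm : ∀ i, k ≤ i → i + 1 < k + (n+2) → Commute (sg A e i) F := fun i h1 h2 =>
      FF_comm hA hd h (n+2) k i hM h1 h2
    have hcomme : ∀ i, k ≤ i → i + 1 < k + (n+2) → Commute (e i) F := fun i h1 h2 =>
      FF_comm_e hA hd h (n+2) k i hM h1 h2
    have hFF' : Commute F F' := commute_FF _ _ (fun i h1 h2 => (hcomm i (by omega) (by omega)).symm)
    have hFe : F * e k = (A⁻¹^6 • F') * e k := by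
      rw [smul_mul_assoc]; exact FF_e hA hd h n k (by omega)
    -- Q(F) e k = 0
    have hQk : aeval F (QQ A n) * e k = 0 := by
      rw [aeval_mul_of_eq (hFF'.smul_right _) hFe]
      have : aeval (A⁻¹^6 • F') (QQ A n) = aeval F' ((QQ A n).comp (C (A⁻¹^6) * X)) := by
        rw [aeval_comp]
        congr 1
        simp [Algebra.smul_def]
      rw [this, QQ_comp hA, map_mul, ih, mul_zero, zero_mul]
    have hQ : ∀ j, j + 1 < n + 2 → aeval F (QQ A n) * e (k + j) = 0 := by
      intro j
      induction j with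
      | zero => intro _; simpa using hQk
      | succ j ihj =>
        intro hj
        have h1 := ihj (by omega)
        have h2 := h.down (k+j) (by omega)
        have h3 : Commute (e (k+j+1)) (aeval F (QQ A n)) :=
          comm_aeval (hcomme (k+j+1) (by omega) (by omega)) _
        show aeval F (QQ A n) * e (k+j+1) = 0
        calc aeval F (QQ A n) * e (k+j+1) 
            = aeval F (QQ A n) * (e (k+j+1) * e (k+j) * e (k+j+1)) := by rw [h2]
          _ = (aeval F (QQ A n) * e (k+j+1)) * e (k+j) * e (k+j+1) := by noncomm_ring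
          _ = (e (k+j+1) * aeval F (QQ A n)) * e (k+j) * e (k+j+1) := by rw [h3.eq]
          _ = e (k+j+1) * (aeval F (QQ A n) * e (k+j)) * e (k+j+1) := by noncomm_ring
          _ = 0 := by rw [h1]; simp
    have hQs : ∀ i, k ≤ i → i + 1 < k + (n+2) → 
        aeval F (QQ A n) * sg A e i = A • aeval F (QQ A n) := by
      intro i h1 h2
      obtain ⟨j, rfl⟩ : ∃ j, i = k + j := ⟨i - k, by omega⟩
      unfold sg
      rw [mul_add, mul_smul_comm, mul_smul_comm, hQ j (by omega), mul_one, smul_zero, add_zero]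
    have hfin := mul_FF_of (n+2) k hQs
    rw [← hF] at hfin
    rw [PP_succ, map_mul, map_sub, aeval_X, aeval_C, mul_sub, hfin]
    have hmu : mu A (n+2) (n+2) = A ^ ((n+2) * (n+2-1)) := by
      unfold mu
      rw [← zpow_natCast]
      congr 1
      push_cast
      ring
    rw [hmu, Algebra.smul_def, ← Algebra.commutes, sub_self]

end final

end TL

end Pool.Agent.H891R2.Jones
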