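import Pool.Agent.H891R2.Jones.Ops

set_option autoImplicit false

namespace Pool.Agent.H891R2.Jones

open Finset

section transfer

variable {m N : ℕ}

/-- partition function with a test function of the colours at the box -/
noncomputable def Zg (A : ℂ) (N : ℕ) (O : Outer m) (g : (Fin m → Fin N) → ((Fin m → Fin N) → ℂ)) : ℂ :=
  ∑ col : O.P → Fin N, WW A O.arcs O.crossings col * g (col ∘ O.lower) (col ∘ O.upper)

theorem local_sum (p q : Fin m) (α β : ℂ) (y : Fin m → Fin N) 
    (h : (Fin m → Fin N) → ℂ) :
    ∑ x : Fin m → Fin N, ind (∀ j, j ≠ p → j ≠ q → y j = x j) * 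
      (α * ind (y q = x q ∧ x p = y p) + β * ind (x q = x p ∧ y p = y q)) * h x =
    α * h y + β * (if y p = y q then ∑ c, h (upd y p q c) else 0) := by
  classical
  have h1 : ∀ x : Fin m → Fin N, ind (∀ j, j ≠ p → j ≠ q → y j = x j) * 
      (α * ind (y q = x q ∧ x p = y p) + β * ind (x q = x p ∧ y p = y q)) * h x =
      α * (if x = y then h x else 0) + 
        β * (if y p = y q then ∑ c, (if x = upd y p q c then h x else 0) else 0) := by
    intro x
    have e1 : ind (∀ j, j ≠ p → j ≠ q → y j = x j) * ind (y q = x q ∧ x p = y p) = ind (x = y) := by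
      rw [ind_mul]
      apply ind_congr
      constructor
      · rintro ⟨h1, h2, h3⟩
        funext j
        by_cases hp : j = p
        · rw [hp, h3]
        · by_cases hq : j = q
          · rw [hq, h2]
          · exact (h1 j hp hq).symm
      · rintro rfl
        exact ⟨fun _ _ _ => rfl, rfl, rfl⟩
    have e2 : ind (∀ j, j ≠ p → j ≠ q → y j = x j) * ind (x q = x p ∧ y p = y q) = 
        if y p = y q then ∑ c, (if x = upd y p q c then 1 else 0) else 0 := by
      rw [ind_mul]
      by_cases hy : y p = y q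
      · rw [if_pos hy]
        by_cases hx : (∀ j, j ≠ p → j ≠ q → y j = x j) ∧ x q = x p
        · rw [ind_pos ⟨hx.1, hx.2, hy⟩]
          have : ∀ c, (x = upd y p q c) ↔ (c = x p) := by
            intro c
            constructor
            · intro h; rw [h, upd_left]
            · rintro rfl
              funext j
              by_cases hp : j = p
              · rw [hp, upd_left]
              · by_cases hq : j = q
                · rw [hq, upd_right, hx.2]
                · rw [upd_other y _ hp hq, hx.1 j hp hq]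
          simp only [this]
          rw [Finset.sum_ite_eq' Finset.univ (x p), if_pos (Finset.mem_univ _)]
        · rw [ind_neg (fun h => hx ⟨h.1, h.2.1⟩)]
          symm
          apply Finset.sum_eq_zero
          intro c _
          apply if_neg
          rintro rfl
          apply hx
          exact ⟨fun j hp hq => (upd_other y c hp hq).symm, by rw [upd_left, upd_right]⟩
      · rw [if_neg hy, ind_neg (fun h => hy h.2.2)]
    calc _ = α * (ind (∀ j, j ≠ p → j ≠ q → y j = x j) * ind (y q = x q ∧ x p = y p)) * h x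
        + β * (ind (∀ j, j ≠ p → j ≠ q → y j = x j) * ind (x q = x p ∧ y p = y q)) * h x := by ring
      _ = _ := by
        rw [e1, e2]
        congr 1
        · unfold ind
          split_ifs <;> ring
        · rw [mul_assoc]
          congr 1
          split_ifs
          · rw [Finset.sum_mul]
            refine Finset.sum_congr rfl fun c _ => ?_
            split_ifs <;> ring
          · ring
  simp only [h1]
  rw [Finset.sum_add_distrib, ← Finset.mul_sum, ← Finset.mul_sum]
  congr 1
  · rw [Finset.sum_ite_eq' Finset.univ y, if_pos (Finset.mem_univ _)]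
  · congr 1
    by_cases hy : y p = y q
    · simp only [hy, if_true]
      rw [Finset.sum_comm]
      refine Finset.sum_congr rfl fun c _ => ?_
      rw [Finset.sum_ite_eq' Finset.univ, if_pos (Finset.mem_univ _)]
    · simp [hy]

theorem crossW_map {P Q : Type} (A : ℂ) (f : P → Q) (col : Q → Fin N) (x : Crossing P) :
    crossW A col (x.map f) = crossW A (col ∘ f) x := rfl

theorem Zg_push_aux (A : ℂ) (O : Outer m) (pos : Bool) (i : ℕ) (h : i + 1 < m)
    (g : (Fin m → Fin N) → ((Fin m → Fin N) → ℂ)) :
    Zg A N (O.push pos i) g = ∑ u : O.P → Fin N, WW A O.arcs O.crossings u * 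
      ∑ x : Fin m → Fin N, 
        ind (∀ j, j ≠ ⟨i, Nat.lt_of_succ_lt h⟩ → j ≠ ⟨i+1, h⟩ → (u ∘ O.lower) j = x j) * 
        crossW A (Sum.elim u x) (O.newCrossing ⟨i, Nat.lt_of_succ_lt h⟩ ⟨i+1, h⟩ pos) * 
        g x (u ∘ O.upper) := by
  rw [Outer.push, dif_pos h]
  unfold Zg
  dsimp only
  rw [← (Equiv.sumArrowEquivProdArrow O.P (Fin m) (Fin N)).symm.sum_comp, Fintype.sum_prod_type]
  refine Finset.sum_congr rfl fun u _ => ?_
  rw [Finset.mul_sum]
  refine Finset.sum_congr rfl fun x _ => ?_
  have e0 : (Equiv.sumArrowEquivProdArrow O.P (Fin m) (Fin N)).symm (u, x) = Sum.elim u x := rfl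
  rw [e0]
  have e1 : (Sum.elim u x ∘ Sum.inr) = x := rfl
  have e2 : (Sum.elim u x ∘ fun j => Sum.inl (O.upper j)) = u ∘ O.upper := rfl
  rw [e1, e2]
  unfold WW
  rw [arcs_prod, arcs_prod, List.map_append, List.prod_append, List.map_map, List.map_singleton,
    List.prod_singleton]
  have e3 : (crossW A (Sum.elim u x) ∘ Crossing.map Sum.inl) = crossW A u := rfl
  rw [e3]
  have e4 : ind (∀ z ∈ O.arcs.map (Prod.map Sum.inl Sum.inl) ++
        ((List.finRange m).filter (fun j => j ≠ ⟨i, Nat.lt_of_succ_lt h⟩ ∧ j ≠ ⟨i+1, h⟩)).map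
          (fun j => if O.up j then (.inl (O.lower j), .inr j) else (.inr j, .inl (O.lower j))),
        Sum.elim u x z.1 = Sum.elim u x z.2) = 
      ind (∀ z ∈ O.arcs, u z.1 = u z.2) * 
        ind (∀ j, j ≠ ⟨i, Nat.lt_of_succ_lt h⟩ → j ≠ ⟨i+1, h⟩ → (u ∘ O.lower) j = x j) := by
    rw [ind_mul]
    apply ind_congr
    simp only [List.mem_append, or_imp, forall_and]
    refine and_congr ?_ ?_
    · constructor
      · intro H z hz
        have := H (Prod.map Sum.inl Sum.inl z) (List.mem_map_of_mem hz)
        simpa using this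
      · intro H z hz
        rw [List.mem_map] at hz
        obtain ⟨w, hw, rfl⟩ := hz
        simpa using H w hw
    · constructor
      · intro H j h1 h2
        have := H (if O.up j then (.inl (O.lower j), .inr j) else (.inr j, .inl (O.lower j))) 
          (List.mem_map_of_mem (by simp [h1, h2]))
        split_ifs at this
        · simpa using this
        · simpa using this.symm
      · intro H z hz
        rw [List.mem_map] at hz
        obtain ⟨j, hj, rfl⟩ := hz
        simp only [List.mem_filter, List.mem_finRange, true_and, decide_eq_true_eq] at hj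
        have := H j hj.1 hj.2
        simp only [Function.comp_apply] at this
        split_ifs
        · simpa using this
        · simpa using this.symm
  rw [e4]
  ring

theorem Zg_push_true {A : ℂ} (O : Outer m) (i : ℕ) (h : i + 1 < m)
    (g : (Fin m → Fin N) → ((Fin m → Fin N) → ℂ)) :
    Zg A N (O.push true i) g = Zg A N O (sg A (ee m N ((Fin m → Fin N) → ℂ)) i g) := by
  rw [Zg_push_aux A O true i h g]
  unfold Zg
  refine Finset.sum_congr rfl fun u _ => ?_
  congr 1
  have := local_sum ⟨i, Nat.lt_of_succ_lt h⟩ ⟨i+1, h⟩ A A⁻¹ (u ∘ O.lower) (fun x => g x (u ∘ O.upper))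
  have e1 : ∀ x, crossW A (Sum.elim u x) (O.newCrossing ⟨i, Nat.lt_of_succ_lt h⟩ ⟨i+1, h⟩ true) = 
      (A * ind ((u ∘ O.lower) ⟨i+1, h⟩ = x ⟨i+1, h⟩ ∧ x ⟨i, Nat.lt_of_succ_lt h⟩ = 
        (u ∘ O.lower) ⟨i, Nat.lt_of_succ_lt h⟩) + 
      A⁻¹ * ind (x ⟨i+1, h⟩ = x ⟨i, Nat.lt_of_succ_lt h⟩ ∧ 
        (u ∘ O.lower) ⟨i, Nat.lt_of_succ_lt h⟩ = (u ∘ O.lower) ⟨i+1, h⟩)) := fun x => rfl
  simp only [e1]
  rw [this]
  unfold sg ee
  rw [dif_pos h]
  simp only [LinearMap.add_apply, LinearMap.smul_apply, Pi.add_apply, Pi.smul_apply, 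
    Module.End.one_apply, EE_apply, smul_eq_mul]
  congr 2
  split_ifs
  · rw [Finset.sum_apply]
  · rfl

theorem crossW_new_false (A : ℂ) (O : Outer m) (u : O.P → Fin N) (x : Fin m → Fin N) (p q : Fin m) :
    crossW A (Sum.elim u x) (O.newCrossing p q false) = 
      (A⁻¹ * ind ((u ∘ O.lower) q = x q ∧ x p = (u ∘ O.lower) p) + 
      A * ind (x q = x p ∧ (u ∘ O.lower) p = (u ∘ O.lower) q)) := by
  show A * ind ((u ∘ O.lower) p = (u ∘ O.lower) q ∧ x q = x p) + 
    A⁻¹ * ind ((u ∘ O.lower) q = x q ∧ x p = (u ∘ O.lower) p) = _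
  rw [add_comm, ind_congr (and_comm (a := (u ∘ O.lower) p = (u ∘ O.lower) q))]

theorem Zg_push_false {A : ℂ} (O : Outer m) (i : ℕ) (h : i + 1 < m)
    (g : (Fin m → Fin N) → ((Fin m → Fin N) → ℂ)) :
    Zg A N (O.push false i) g = Zg A N O (sg A⁻¹ (ee m N ((Fin m → Fin N) → ℂ)) i g) := by
  rw [Zg_push_aux A O false i h g]
  unfold Zg
  refine Finset.sum_congr rfl fun u _ => ?_
  congr 1
  have := local_sum ⟨i, Nat.lt_of_succ_lt h⟩ ⟨i+1, h⟩ A⁻¹ A (u ∘ O.lower) (fun x => g x (u ∘ O.upper))
  simp only [crossW_new_false]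
  rw [this]
  unfold sg ee
  rw [dif_pos h]
  simp only [LinearMap.add_apply, LinearMap.smul_apply, Pi.add_apply, Pi.smul_apply, 
    Module.End.one_apply, EE_apply, smul_eq_mul, inv_inv]
  congr 2
  split_ifs
  · rw [Finset.sum_apply]
  · rfl

theorem Zg_pushList_true {A : ℂ} (w : List ℕ) : ∀ (O : Outer m), (∀ i ∈ w, i + 1 < m) → 
    ∀ (g : (Fin m → Fin N) → ((Fin m → Fin N) → ℂ)),
    Zg A N (O.pushList true w) g = 
      Zg A N O ((w.map (sg A (ee m N ((Fin m → Fin N) → ℂ)))).prod g) := by
  induction w with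
  | nil => intro O _ g; rfl
  | cons i w ih =>
    intro O hw g
    have h1 := ih (O.push true i) (fun j hj => hw j (List.mem_cons_of_mem _ hj)) g
    have h2 : O.pushList true (i :: w) = (O.push true i).pushList true w := rfl
    rw [h2, h1, Zg_push_true O i (hw i List.mem_cons_self), List.map_cons, List.prod_cons]
    rfl

theorem Zg_pushList_false {A : ℂ} (w : List ℕ) : ∀ (O : Outer m), (∀ i ∈ w, i + 1 < m) → 
    ∀ (g : (Fin m → Fin N) → ((Fin m → Fin N) → ℂ)),
    Zg A N (O.pushList false w) g = 
      Zg A N O ((w.map (sg A⁻¹ (ee m N ((Fin m → Fin N) → ℂ)))).prod g) := by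
  induction w with
  | nil => intro O _ g; rfl
  | cons i w ih =>
    intro O hw g
    have h1 := ih (O.push false i) (fun j hj => hw j (List.mem_cons_of_mem _ hj)) g
    have h2 : O.pushList false (i :: w) = (O.push false i).pushList false w := rfl
    rw [h2, h1, Zg_push_false O i (hw i List.mem_cons_self), List.map_cons, List.prod_cons]
    rfl

/-- the words -/
theorem loopWord_prod {R : Type*} [Ring R] (s : ℕ → R) : ∀ n k, ((loopWord n k).map s).prod = LL s n k
  | 0, _ => rfl
  | 1, _ => rfl
  | (n+2), k => by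
    rw [loopWord, LL, List.map_append, List.map_append, List.prod_append, List.prod_append,
      loopWord_prod s (n+1) (k+1)]
    simp

theorem twistWord_prod {R : Type*} [Ring R] (s : ℕ → R) : ∀ n k, ((twistWord n k).map s).prod = FF s n k
  | 0, _ => rfl
  | (n+1), k => by
    rw [twistWord, FF, List.map_append, List.prod_append, loopWord_prod, twistWord_prod s n (k+1)]

theorem loopWord_mem : ∀ n k i, i ∈ loopWord n k → k ≤ i ∧ i + 1 < k + n
  | 0, _, _, h => by simp [loopWord] at h
  | 1, _, _, h => by simp [loopWord] at h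
  | (n+2), k, i, h => by
    rw [loopWord] at h
    simp only [List.cons_append, List.nil_append, List.mem_cons, List.mem_append, 
      List.not_mem_nil, or_false] at h
    rcases h with h | h | h
    · omega
    · have := loopWord_mem (n+1) (k+1) i h; omega
    · omega

theorem twistWord_mem : ∀ n k i, i ∈ twistWord n k → k ≤ i ∧ i + 1 < k + n
  | 0, _, _, h => by simp [twistWord] at h
  | (n+1), k, i, h => by
    rw [twistWord, List.mem_append] at h
    rcases h with h | h
    · have := twistWord_mem n (k+1) i h; omega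
    · exact loopWord_mem (n+1) k i h

theorem prod_reverse {R : Type*} [Ring R] (s s' : ℕ → R) (w : List ℕ) (h : ∀ i ∈ w, s i * s' i = 1) :
    (w.map s).prod * (w.reverse.map s').prod = 1 := by
  induction w with
  | nil => simp
  | cons i w ih =>
    rw [List.reverse_cons, List.map_append, List.prod_append, List.map_cons, List.prod_cons,
      List.map_singleton, List.prod_singleton]
    have h1 := ih (fun j hj => h j (List.mem_cons_of_mem _ hj))
    have h2 := h i List.mem_cons_self
    calc s i * (w.map s).prod * ((w.reverse.map s').prod * s' i) 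
        = s i * ((w.map s).prod * (w.reverse.map s').prod) * s' i := by noncomm_ring
      _ = 1 := by rw [h1, mul_one, h2]

theorem prod_reverse' {R : Type*} [Ring R] (s s' : ℕ → R) (w : List ℕ) (h : ∀ i ∈ w, s' i * s i = 1) :
    (w.reverse.map s').prod * (w.map s).prod = 1 := by
  have := prod_reverse s' s w.reverse (fun i hi => h i (List.mem_reverse.1 hi))
  rwa [List.reverse_reverse] at this

/-- the full twist as a unit of the endomorphism ring -/
noncomputable def twistUnit {A : ℂ} (hA : A ≠ 0) (m N : ℕ) (hN : (N : ℂ) = -A^2 - A⁻¹^2) : 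
    (Module.End ℂ ((Fin m → Fin N) → ((Fin m → Fin N) → ℂ)))ˣ where
  val := FF (sg A (ee m N _)) m 0
  inv := ((twistWord m 0).reverse.map (sg A⁻¹ (ee m N _))).prod
  val_inv := by
    rw [← twistWord_prod]
    refine prod_reverse _ _ _ (fun i hi => ?_)
    have := twistWord_mem m 0 i hi
    exact sg_inv hA hN (isTL_ee m N) i (by omega)
  inv_val := by
    rw [← twistWord_prod]
    refine prod_reverse' _ _ _ (fun i hi => ?_)
    have := twistWord_mem m 0 i hi
    exact sg_inv' hA hN (isTL_ee m N) i (by omega)

theorem Zg_twist {A : ℂ} (hA : A ≠ 0) (hN : (N : ℂ) = -A^2 - A⁻¹^2) (O : Outer m) (a : ℤ)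
    (g : (Fin m → Fin N) → ((Fin m → Fin N) → ℂ)) :
    Zg A N (O.twist a) g = Zg A N O (((twistUnit hA m N hN ^ a : 
      (Module.End ℂ ((Fin m → Fin N) → ((Fin m → Fin N) → ℂ)))ˣ) : 
        Module.End ℂ ((Fin m → Fin N) → ((Fin m → Fin N) → ℂ))) g) := by
  have hpos : ∀ (n : ℕ) (O : Outer m) (g : (Fin m → Fin N) → ((Fin m → Fin N) → ℂ)), 
      Zg A N ((fun O : Outer m => O.pushList true (twistWord m 0))^[n] O) g = 
      Zg A N O (((twistUnit hA m N hN ^ n : 
      (Module.End ℂ ((Fin m → Fin N) → ((Fin m → Fin N) → ℂ)))ˣ) : 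
        Module.End ℂ ((Fin m → Fin N) → ((Fin m → Fin N) → ℂ))) g) := by
    intro n
    induction n with
    | zero => intro O g; simp
    | succ n ih =>
      intro O g
      rw [Function.iterate_succ_apply, ih, Zg_pushList_true _ O 
        (fun i hi => by have := twistWord_mem m 0 i hi; omega), twistWord_prod, pow_succ']
      rfl
  have hneg : ∀ (n : ℕ) (O : Outer m) (g : (Fin m → Fin N) → ((Fin m → Fin N) → ℂ)), 
      Zg A N ((fun O : Outer m => O.pushList false (twistWord m 0).reverse)^[n] O) g = 
      Zg A N O ((((twistUnit hA m N hN)⁻¹ ^ n : 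
      (Module.End ℂ ((Fin m → Fin N) → ((Fin m → Fin N) → ℂ)))ˣ) : 
        Module.End ℂ ((Fin m → Fin N) → ((Fin m → Fin N) → ℂ))) g) := by
    intro n
    induction n with
    | zero => intro O g; simp
    | succ n ih =>
      intro O g
      rw [Function.iterate_succ_apply, ih, Zg_pushList_false _ O 
        (fun i hi => by
          have := twistWord_mem m 0 i (List.mem_reverse.1 hi); omega), pow_succ']
      rfl
  rcases a with n | n
  · rw [Outer.twist, hpos]; simp
  · rw [Outer.twist, hneg, zpow_negSucc, inv_pow]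

/-- closing -/
theorem Z_close (A : ℂ) (O : Outer m) :
    ∑ col : O.P → Fin N, WW A O.close.arcs O.close.crossings col = 
      Zg A N O (fun x y => ind (x = y)) := by
  unfold Zg
  refine Finset.sum_congr rfl fun u _ => ?_
  unfold WW Outer.close
  dsimp only
  rw [arcs_prod, arcs_prod]
  have : ind (∀ z ∈ O.arcs ++ (List.finRange m).map (fun j => 
    if O.up j then (O.lower j, O.upper j) else (O.upper j, O.lower j)), u z.1 = u z.2) = 
      ind (∀ z ∈ O.arcs, u z.1 = u z.2) * ind (u ∘ O.lower = u ∘ O.upper) := by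
    rw [ind_mul]
    apply ind_congr
    simp only [List.mem_append, or_imp, forall_and]
    refine and_congr Iff.rfl ?_
    constructor
    · intro H
      funext j
      have := H _ (List.mem_map_of_mem (List.mem_finRange j))
      split_ifs at this
      · exact this
      · exact this.symm
    · intro H z hz
      rw [List.mem_map] at hz
      obtain ⟨j, _, rfl⟩ := hz
      have := congrFun H j
      simp only [Function.comp_apply] at this
      split_ifs
      · exact this
      · exact this.symm
  rw [this]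
  ring

end transfer

end Pool.Agent.H891R2.Jones
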