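import Pool.Agent.H891R2.Jones.Transfer

set_option autoImplicit false

namespace Pool.Agent.H891R2.Jones

open Finset

/-- orientation pattern as a function on `ℕ` -/
def pat {m : ℕ} (u : Fin m → Bool) (j : ℕ) : ℤ := 
  if h : j < m then (if u ⟨j, h⟩ then 1 else -1) else 0

/-- effect of a word on a pattern -/
def actW : List ℕ → (ℕ → ℤ) → (ℕ → ℤ)
  | [], U => U
  | (i :: w), U => actW w (U ∘ Equiv.swap i (i+1))

def costW : List ℕ → (ℕ → ℤ) → ℤ
  | [], _ => 0
  | (i :: w), U => U i * U (i+1) + costW w (U ∘ Equiv.swap i (i+1))

theorem actW_append (w w' : List ℕ) : ∀ U, actW (w ++ w') U = actW w' (actW w U) := by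
  induction w with
  | nil => intro U; rfl
  | cons i w ih => intro U; exact ih _

theorem costW_append (w w' : List ℕ) : ∀ U, costW (w ++ w') U = costW w U + costW w' (actW w U) := by
  induction w with
  | nil => intro U; simp [costW, actW]
  | cons i w ih =>
    intro U
    simp only [List.cons_append, costW, actW, ih]
    ring

theorem swap_comp_swap (U : ℕ → ℤ) (i : ℕ) : 
    (U ∘ Equiv.swap i (i+1)) ∘ Equiv.swap i (i+1) = U := by
  funext j
  simp

theorem loopWord_act : ∀ n k (U : ℕ → ℤ), actW (loopWord n k) U = U ∧ 
    costW (loopWord (n+1) k) U = 2 * U k * ∑ j ∈ range n, U (k+1+j) := by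
  have hact : ∀ n k (U : ℕ → ℤ), actW (loopWord n k) U = U := by
    intro n
    induction n using Nat.strong_induction_on with
    | _ n ih =>
      intro k U
      rcases n with _ | _ | n
      · rfl
      · rfl
      · rw [loopWord, actW_append, actW_append, ih (n+1) (by omega)]
        exact swap_comp_swap U k
  intro n
  induction n with
  | zero => intro k U; exact ⟨rfl, by simp [loopWord, costW]⟩
  | succ n ih =>
    intro k U
    refine ⟨hact _ _ _, ?_⟩
    rw [show n + 1 + 1 = n + 2 from rfl, loopWord, costW_append, costW_append, actW_append,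
      hact]
    have h1 := (ih (k+1) (actW [k] U)).2
    rw [h1, Finset.sum_range_succ']
    simp only [costW, actW, Function.comp_apply, Equiv.swap_apply_right, Equiv.swap_apply_left,
      add_zero]
    have h2 : ∀ j ∈ range n, U (Equiv.swap k (k+1) (k+1+1+j)) = U (k+1+(j+1)) := by
      intro j _
      rw [Equiv.swap_apply_of_ne_of_ne (by omega) (by omega)]
      congr 1
      omega
    rw [Finset.sum_congr rfl h2]
    ring

theorem twistWord_act : ∀ n k (U : ℕ → ℤ), actW (twistWord n k) U = U ∧ 
    costW (twistWord n k) U = (∑ j ∈ range n, U (k+j))^2 - ∑ j ∈ range n, U (k+j)^2 := by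
  intro n
  induction n with
  | zero => intro k U; simp [twistWord, actW, costW]
  | succ n ih =>
    intro k U
    obtain ⟨h1, h2⟩ := ih (k+1) U
    refine ⟨?_, ?_⟩
    · rw [twistWord, actW_append, h1, (loopWord_act _ _ _).1]
    · rw [twistWord, costW_append, h1, h2, (loopWord_act n k U).2, Finset.sum_range_succ',
        Finset.sum_range_succ' (fun j => U (k+j)^2)]
      have h3 : ∀ j, U (k + (j+1)) = U (k+1+j) := by intro j; congr 1; omega
      simp only [h3, add_zero]
      ring

theorem reverse_act (w : List ℕ) : ∀ U, actW w.reverse (actW w U) = U ∧ 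
    costW w.reverse (actW w U) = costW w U := by
  induction w with
  | nil => intro U; exact ⟨rfl, rfl⟩
  | cons i w ih =>
    intro U
    obtain ⟨h1, h2⟩ := ih (U ∘ Equiv.swap i (i+1))
    rw [List.reverse_cons, actW_append, costW_append]
    have e : actW (i :: w) U = actW w (U ∘ Equiv.swap i (i+1)) := rfl
    rw [e, h1, h2]
    refine ⟨swap_comp_swap U i, ?_⟩
    simp only [costW, Function.comp_apply, Equiv.swap_apply_right, Equiv.swap_apply_left]
    ring

section outer

variable {m : ℕ}

theorem pat_swap (u : Fin m → Bool) (i : ℕ) (h : i + 1 < m) :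
    pat (u ∘ Equiv.swap ⟨i, Nat.lt_of_succ_lt h⟩ ⟨i+1, h⟩) = pat u ∘ Equiv.swap i (i+1) := by
  funext j
  simp only [Function.comp_apply]
  by_cases hji : j = i
  · subst hji
    rw [Equiv.swap_apply_left]
    simp only [pat, h, Nat.lt_of_succ_lt h, dif_pos, Function.comp_apply, Equiv.swap_apply_left]
  · by_cases hji' : j = i + 1
    · subst hji'
      rw [Equiv.swap_apply_right]
      simp only [pat, h, Nat.lt_of_succ_lt h, dif_pos, Function.comp_apply, Equiv.swap_apply_right]
    · rw [Equiv.swap_apply_of_ne_of_ne hji hji']
      unfold pat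
      by_cases hj : j < m
      · rw [dif_pos hj, dif_pos hj]
        have e : (Equiv.swap (⟨i, Nat.lt_of_succ_lt h⟩ : Fin m) ⟨i+1, h⟩) ⟨j, hj⟩ = ⟨j, hj⟩ :=
          Equiv.swap_apply_of_ne_of_ne (by simpa [Fin.ext_iff] using hji) 
          (by simpa [Fin.ext_iff] using hji')
        simp only [Function.comp_apply, e]
      · rw [dif_neg hj, dif_neg hj]

/-- writhe of the outer part -/
def owr (O : Outer m) : ℤ := (O.crossings.map Crossing.sign).sum

theorem close_writhe (O : Outer m) : O.close.writhe = owr O := rfl

theorem push_writhe (O : Outer m) (pos : Bool) (i : ℕ) (h : i + 1 < m) :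
    owr (O.push pos i) = owr O + (if pos then 1 else -1) * (pat O.up i * pat O.up (i+1)) ∧
    pat (O.push pos i).up = pat O.up ∘ Equiv.swap i (i+1) := by
  constructor
  · rw [Outer.push, dif_pos h]
    unfold owr
    dsimp only
    rw [List.map_append, List.sum_append, List.map_map]
    have : (Crossing.sign ∘ Crossing.map (Sum.inl : O.P → O.P ⊕ Fin m)) = Crossing.sign := rfl
    rw [this, List.map_singleton, List.sum_singleton]
    congr 1
    have h1 := Nat.lt_of_succ_lt h
    simp only [pat, h, h1, dif_pos]
    cases pos <;> cases hx : O.up ⟨i, h1⟩ <;> cases hy : O.up ⟨i+1, h⟩ <;>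
      simp [Crossing.sign, Outer.newCrossing, hx, hy]
  · rw [Outer.push, dif_pos h]
    exact pat_swap O.up i h

theorem pushList_writhe (pos : Bool) (w : List ℕ) : ∀ (O : Outer m), (∀ i ∈ w, i + 1 < m) → 
    owr (O.pushList pos w) = owr O + (if pos then 1 else -1) * costW w (pat O.up) ∧
    pat (O.pushList pos w).up = actW w (pat O.up) := by
  induction w with
  | nil => intro O _; simp [Outer.pushList, costW, actW]
  | cons i w ih =>
    intro O hw
    obtain ⟨h1, h2⟩ := ih (O.push pos i) (fun j hj => hw j (List.mem_cons_of_mem _ hj))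
    obtain ⟨h3, h4⟩ := push_writhe O pos i (hw i List.mem_cons_self)
    have h5 : O.pushList pos (i :: w) = (O.push pos i).pushList pos w := rfl
    rw [h5, h1, h2, h3, h4]
    refine ⟨?_, rfl⟩
    simp only [costW]
    ring

theorem pat_sum (u : Fin m → Bool) : 
    (∑ j ∈ range m, pat u (0+j)) = ∑ j, (if u j then 1 else -1) ∧
    (∑ j ∈ range m, pat u (0+j)^2) = m := by
  constructor
  · rw [Finset.sum_range]
    refine Finset.sum_congr rfl fun j _ => ?_
    simp [pat]
  · rw [Finset.sum_range]
    have : ∀ j ∈ (Finset.univ : Finset (Fin m)), pat u (0 + (j:ℕ))^2 = 1 := by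
      intro j _
      simp only [pat, zero_add, Fin.is_lt, dif_pos]
      split_ifs <;> norm_num
    rw [Finset.sum_congr rfl this]
    simp

theorem twist_writhe (O : Outer m) (a : ℤ) :
    (O.twisted a).writhe = O.close.writhe + a * (O.linking ^ 2 - m) := by
  have key : ∀ u : Fin m → Bool, costW (twistWord m 0) (pat u) = 
      (∑ j, (if u j then 1 else -1 : ℤ))^2 - m := by
    intro u
    rw [(twistWord_act m 0 (pat u)).2, (pat_sum u).1, (pat_sum u).2]
  have pat_inj : ∀ u v : Fin m → Bool, pat u = pat v → u = v := by
    intro u v h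
    funext j
    have := congrFun h j
    simp only [pat, Fin.is_lt, dif_pos] at this
    revert this
    cases u j <;> cases v j <;> simp
  have hmem : ∀ i ∈ twistWord m 0, i + 1 < m := fun i hi => by
    have := twistWord_mem m 0 i hi; omega
  have hpos : ∀ (n : ℕ) (O : Outer m), 
      owr ((fun O : Outer m => O.pushList true (twistWord m 0))^[n] O) = 
        owr O + n * (O.linking ^ 2 - m) := by
    intro n
    induction n with
    | zero => intro O; simp
    | succ n ih =>
      intro O
      obtain ⟨h1, h2⟩ := pushList_writhe true (twistWord m 0) O hmem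
      rw [(twistWord_act m 0 _).1] at h2
      have h3 := pat_inj _ _ h2
      rw [Function.iterate_succ_apply, ih]
      have h4 : (O.pushList true (twistWord m 0)).linking = O.linking := by
        unfold Outer.linking; rw [h3]
      rw [h4, h1, key]
      unfold Outer.linking
      push_cast
      simp only [if_true]
      ring
  have hneg : ∀ (n : ℕ) (O : Outer m), 
      owr ((fun O : Outer m => O.pushList false (twistWord m 0).reverse)^[n] O) = 
        owr O - n * (O.linking ^ 2 - m) := by
    intro n
    induction n with
    | zero => intro O; simp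
    | succ n ih =>
      intro O
      obtain ⟨h1, h2⟩ := pushList_writhe false (twistWord m 0).reverse O 
        (fun i hi => hmem i (List.mem_reverse.1 hi))
      obtain ⟨h5, h6⟩ := reverse_act (twistWord m 0) (pat O.up)
      rw [(twistWord_act m 0 _).1] at h5 h6
      rw [h5] at h2
      rw [h6] at h1
      have h3 := pat_inj _ _ h2
      rw [Function.iterate_succ_apply, ih]
      have h4 : (O.pushList false (twistWord m 0).reverse).linking = O.linking := by
        unfold Outer.linking; rw [h3]
      rw [h4, h1, key]
      unfold Outer.linking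
      push_cast
      ring
  rcases a with n | n
  · show owr (O.twist (Int.ofNat n)) = _
    rw [Outer.twist, hpos, close_writhe]
    simp
  · show owr (O.twist (Int.negSucc n)) = _
    rw [Outer.twist, hneg, close_writhe, Int.negSucc_eq]
    push_cast
    ring

end outer

end Pool.Agent.H891R2.Jones
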